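import Mathlib

/-!
Functions of two variables acting on characteristic functions.

We determine all functions `F` on the product of two closed unit discs (no regularity assumed) such
that `F(φ(ξ), ψ(ξ))` is a characteristic function for all characteristic functions `φ, ψ`: they are
exactly the power series `∑ a_{jklm} x^j x̄^k y^l ȳ^m` with nonnegative coefficients of sum one.

Outline of the proof of the main direction.
* Continuity in the open bidisc: for nearby points `x, x'` there is a finitely supported measure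
  with `φ(1/Q) = x`, `φ(1/Q - 1) = x'`, `φ(1) = cos η`; then the inequality
  `|g(s) - g(t)|² ≤ 2 (1 - Re g(s-t))` is used for `g = F(φ, ψ)`.
* Positivity: for independent coordinates `z_i`, `w_j` on a finite cyclic group, the function
  `F(avg z, avg w)` has nonnegative Fourier coefficients.
* With truncated Poisson kernels of means `x` and `y` as weights, the law of large numbers gives
  `F(x, y)` as a limit of power series with nonnegative coefficients of sum at most `1`; a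
  compactness argument finishes the proof in the open bidisc.
* The boundary is reached along characteristic functions.
-/

namespace Pool.Agent.Results.MP_23fb81_pr.TwoVariable

open MeasureTheory Filter Topology
open scoped ComplexConjugate

noncomputable section

set_option linter.unusedSectionVars false

/-- The closed unit disc of the complex plane. -/
abbrev Disc : Type := Metric.closedBall (0 : ℂ) 1

/-- The value `φ(ξ) = ∫ e^{iξt} dμ(t)` of the characteristic function of the probability measure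
`μ`, as a point of the closed unit disc. -/
def cf (μ : Measure ℝ) [IsProbabilityMeasure μ] (ξ : ℝ) : Disc :=
  ⟨charFun μ ξ, by simpa using norm_charFun_le_one (μ := μ) ξ⟩

/-- A function `F` on the product of two closed unit discs is admissible if for every pair of
characteristic functions `φ`, `ψ` (of Borel probability measures `μ`, `ν` on `ℝ`) the function
`ξ ↦ F (φ ξ) (ψ ξ)` is again a characteristic function (of a Borel probability measure `ρ`). -/
def Admissible (F : Disc → Disc → ℂ) : Prop :=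
  ∀ (μ ν : Measure ℝ) [IsProbabilityMeasure μ] [IsProbabilityMeasure ν],
    ∃ ρ : Measure ℝ, IsProbabilityMeasure ρ ∧ ∀ ξ : ℝ, charFun ρ ξ = F (cf μ ξ) (cf ν ξ)

/-- Working version of admissibility for functions defined on all of `ℂ × ℂ`. -/
def Adm (F : ℂ → ℂ → ℂ) : Prop :=
  ∀ μ ν : Measure ℝ, IsProbabilityMeasure μ → IsProbabilityMeasure ν →
    ∃ ρ : Measure ℝ, IsProbabilityMeasure ρ ∧
      ∀ ξ : ℝ, charFun ρ ξ = F (charFun μ ξ) (charFun ν ξ)

/-! ### Finitely supported measures and positive definiteness -/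

lemma exists_finite_measure {ι : Type*} [Fintype ι] (p : ι → ℝ) (hp : ∀ i, 0 ≤ p i)
    (hs : ∑ i, p i = 1) (l : ι → ℝ) :
    ∃ μ : Measure ℝ, IsProbabilityMeasure μ ∧
      ∀ ξ : ℝ, charFun μ ξ = ∑ i, (p i : ℂ) * Complex.exp ((ξ * l i : ℝ) * Complex.I) := by
  refine ⟨∑ i, ENNReal.ofReal (p i) • Measure.dirac (l i), ⟨?_⟩, ?_⟩
  · simp only [Measure.coe_finsetSum, Measure.coe_smul, Finset.sum_apply, Pi.smul_apply,
      measure_univ, smul_eq_mul, mul_one]
    rw [← ENNReal.ofReal_sum_of_nonneg (fun i _ => hp i), hs, ENNReal.ofReal_one]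
  · intro ξ
    rw [charFun_apply_real, integral_finsetSum_measure]
    · apply Finset.sum_congr rfl
      intro i _
      rw [integral_smul_measure, integral_dirac, ENNReal.toReal_ofReal (hp i)]
      rw [Complex.real_smul]
      push_cast
      ring_nf
    · intro i _
      apply Integrable.smul_measure _ ENNReal.ofReal_ne_top
      exact integrable_dirac (by simp)

lemma charFun_posdef (ρ : Measure ℝ) [IsProbabilityMeasure ρ] {κ : Type*} (s : Finset κ)
    (u : κ → ℝ) (c : κ → ℂ) :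
    ∃ r : ℝ, 0 ≤ r ∧ ∑ k ∈ s, ∑ l ∈ s, c k * conj (c l) * charFun ρ (u k - u l) = r := by
  refine ⟨∫ x, ‖∑ k ∈ s, c k * Complex.exp ((u k * x : ℝ) * Complex.I)‖ ^ 2 ∂ρ,
    integral_nonneg fun x => by positivity, ?_⟩
  rw [← integral_complex_ofReal]
  have hint : ∀ t : ℝ, Integrable (fun x : ℝ => Complex.exp (t * x * Complex.I)) ρ := by
    intro t
    refine (integrable_const (1 : ℝ)).mono' ?_ ?_
    · exact (by fun_prop : Continuous fun x : ℝ => Complex.exp (t * x * Complex.I)).aestronglyMeasurable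
    · refine ae_of_all _ fun x => ?_
      have : (t * x * Complex.I : ℂ) = ((t * x : ℝ) : ℂ) * Complex.I := by push_cast; ring
      rw [this, Complex.norm_exp_ofReal_mul_I]
  have h1 : ∀ k l, c k * conj (c l) * charFun ρ (u k - u l) =
      ∫ x, c k * conj (c l) * Complex.exp (((u k - u l : ℝ) : ℂ) * x * Complex.I) ∂ρ := by
    intro k l
    rw [charFun_apply_real, integral_const_mul]
  simp only [h1]
  simp_rw [← integral_finsetSum s (fun l _ => (hint _).const_mul _)]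
  rw [← integral_finsetSum s (fun k _ => integrable_finsetSum s (fun l _ => (hint _).const_mul _))]
  congr 1
  ext1 x
  have h2 : ((‖∑ k ∈ s, c k * Complex.exp ((u k * x : ℝ) * Complex.I)‖ ^ 2 : ℝ) : ℂ) =
      (∑ k ∈ s, c k * Complex.exp ((u k * x : ℝ) * Complex.I)) *
        conj (∑ k ∈ s, c k * Complex.exp ((u k * x : ℝ) * Complex.I)) := by
    rw [Complex.mul_conj, Complex.normSq_eq_norm_sq]
  rw [h2, map_sum, Finset.sum_mul_sum]
  apply Finset.sum_congr rfl
  intro k _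
  apply Finset.sum_congr rfl
  intro l _
  rw [map_mul, ← Complex.exp_conj]
  have h3 : conj (((u l * x : ℝ) : ℂ) * Complex.I) = -(((u l * x : ℝ) : ℂ) * Complex.I) := by
    rw [map_mul, Complex.conj_ofReal, Complex.conj_I]; ring
  rw [h3]
  have h4 : Complex.exp (((u k - u l : ℝ) : ℂ) * x * Complex.I) =
      Complex.exp ((u k * x : ℝ) * Complex.I) * Complex.exp (-(((u l * x : ℝ) : ℂ) * Complex.I)) := by
    rw [← Complex.exp_add]
    congr 1
    push_cast
    ring
  rw [h4]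
  ring

/-- the elementary inequality for characteristic functions -/
lemma charFun_ineq (ρ : Measure ℝ) [IsProbabilityMeasure ρ] (s t : ℝ) :
    ‖charFun ρ s - charFun ρ t‖ ^ 2 ≤ 2 * (1 - (charFun ρ (s - t)).re) := by
  set D := charFun ρ s - charFun ρ t with hD
  obtain ⟨r, hr, h⟩ := charFun_posdef ρ (Finset.univ : Finset (Fin 3)) ![0, s, t]
    ![-D, 1, -1]
  have h0 : charFun ρ (0 : ℝ) = 1 := by simp
  simp only [Fin.sum_univ_three, Matrix.cons_val, sub_self, h0, zero_sub, sub_zero] at h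
  rw [charFun_neg, charFun_neg] at h
  have h5 : charFun ρ (t - s) = conj (charFun ρ (s - t)) := by rw [← charFun_neg, neg_sub]
  rw [h5] at h
  have h6 := congrArg Complex.re h
  simp only [Complex.add_re, Complex.mul_re, Complex.neg_re, Complex.neg_im, Complex.conj_re,
    Complex.conj_im, Complex.one_re, Complex.one_im, Complex.ofReal_re, map_neg, map_one,
    Complex.mul_im] at h6
  have h7 : ‖D‖ ^ 2 = D.re ^ 2 + D.im ^ 2 := by
    rw [← Complex.normSq_eq_norm_sq, Complex.normSq_apply]; ring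
  rw [h7]
  have h8 : D.re = (charFun ρ s).re - (charFun ρ t).re := by rw [hD, Complex.sub_re]
  have h9 : D.im = (charFun ρ s).im - (charFun ρ t).im := by rw [hD, Complex.sub_im]
  have h10 : r = 2 * (1 - (charFun ρ (s - t)).re) - (D.re ^ 2 + D.im ^ 2) := by
    rw [← h6, h8, h9]; ring
  linarith

/-! ### Truncated Poisson kernels -/

/-- `x^j` for `j ≥ 0` and `(conj x)^(-j)` for `j ≤ 0` -/
def xp (x : ℂ) (j : ℤ) : ℂ := x ^ j.toNat * (conj x) ^ (-j).toNat

lemma xp_zero (x : ℂ) : xp x 0 = 1 := by simp [xp]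
lemma xp_one (x : ℂ) : xp x 1 = x := by simp [xp]
lemma xp_neg_one (x : ℂ) : xp x (-1) = conj x := by simp [xp]

/-- the truncated Poisson kernel -/
def ker (h : ℕ) (x ζ : ℂ) : ℂ := ∑ j ∈ Finset.Icc (-(h : ℤ)) h, xp x j * ζ ^ (-j)

lemma Icc_succ (h : ℕ) : Finset.Icc (-((h + 1 : ℕ) : ℤ)) ((h + 1 : ℕ) : ℤ) =
    insert (-((h + 1 : ℕ) : ℤ)) (insert ((h + 1 : ℕ) : ℤ) (Finset.Icc (-(h : ℤ)) h)) := by
  ext j
  simp only [Finset.mem_insert, Finset.mem_Icc]
  push_cast
  omega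

lemma ker_eq (h : ℕ) (x ζ : ℂ) (hζ : ‖ζ‖ = 1) :
    ker h x ζ = ((1 + 2 * ∑ j ∈ Finset.range h, (x * conj ζ) ^ (j + 1)).re : ℂ) := by
  have hζ0 : ζ ≠ 0 := by
    intro h0; rw [h0, norm_zero] at hζ; exact zero_ne_one hζ
  have hinv : ζ⁻¹ = conj ζ := by
    rw [Complex.inv_def, Complex.normSq_eq_norm_sq, hζ]; simp
  induction h with
  | zero => simp [ker, xp]
  | succ h ih =>
    have e1 : (-((h + 1 : ℕ) : ℤ)) ∉ insert ((h + 1 : ℕ) : ℤ) (Finset.Icc (-(h : ℤ)) h) := by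
      simp only [Finset.mem_insert, Finset.mem_Icc]; push_cast; omega
    have e2 : ((h + 1 : ℕ) : ℤ) ∉ Finset.Icc (-(h : ℤ)) h := by
      simp only [Finset.mem_Icc]; push_cast; omega
    have e3 : xp x (-((h + 1 : ℕ) : ℤ)) = (conj x) ^ (h + 1) := by
      unfold xp
      rw [neg_neg, Int.toNat_natCast, Int.toNat_eq_zero.2 (by push_cast; omega)]
      simp
    have e4 : xp x ((h + 1 : ℕ) : ℤ) = x ^ (h + 1) := by
      unfold xp
      rw [Int.toNat_natCast, Int.toNat_eq_zero.2 (by push_cast; omega)]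
      simp
    have e5 : ker (h + 1) x ζ = (conj x) ^ (h + 1) * ζ ^ (h + 1) +
        (x ^ (h + 1) * (conj ζ) ^ (h + 1) + ker h x ζ) := by
      unfold ker
      rw [Icc_succ, Finset.sum_insert e1, Finset.sum_insert e2, e3, e4, neg_neg, zpow_natCast,
        zpow_neg, zpow_natCast, ← inv_pow, hinv]
    have e6 : (((2 * (x * conj ζ) ^ (h + 1)).re : ℝ) : ℂ) = (conj x) ^ (h + 1) * ζ ^ (h + 1) +
        x ^ (h + 1) * (conj ζ) ^ (h + 1) := by
      have h1 : (conj x) ^ (h + 1) * ζ ^ (h + 1) = conj ((x * conj ζ) ^ (h + 1)) := by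
        rw [map_pow, map_mul, Complex.conj_conj, mul_pow]
      have h2 : x ^ (h + 1) * (conj ζ) ^ (h + 1) = (x * conj ζ) ^ (h + 1) := by rw [mul_pow]
      rw [h1, h2, add_comm (conj ((x * conj ζ) ^ (h + 1))) _, Complex.add_conj]
      norm_num
    rw [e5, ih, Finset.sum_range_succ, mul_add, ← add_assoc, ← add_assoc,
      Complex.add_re (1 + 2 * ∑ j ∈ Finset.range h, (x * conj ζ) ^ (j + 1)), Complex.ofReal_add,
      e6]
    ring

lemma ker_nonneg (h : ℕ) (x ζ : ℂ) (hζ : ‖ζ‖ = 1) (R : ℝ) (hR : R < 1) (hx : ‖x‖ ≤ R)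
    (hh : 4 * R ^ (h + 1) ≤ 1 - R ^ 2) : ∃ r : ℝ, 0 ≤ r ∧ ker h x ζ = r := by
  refine ⟨_, ?_, ker_eq h x ζ hζ⟩
  set w := x * conj ζ with hw
  have hwn : ‖w‖ ≤ R := by rw [hw, norm_mul, Complex.norm_conj, hζ, mul_one]; exact hx
  have hw0 : 0 ≤ ‖w‖ := norm_nonneg _
  set A : ℂ := 1 + 2 * ∑ j ∈ Finset.range h, w ^ (j + 1) with hA
  have h1 : (1 - w) * A = 1 + w - 2 * w ^ (h + 1) := by
    rw [hA]
    have hg : (1 - w) * ∑ j ∈ Finset.range h, w ^ (j + 1) = w - w ^ (h + 1) := by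
      simp_rw [pow_succ, ← Finset.sum_mul]
      rw [← mul_assoc, mul_neg_geom_sum]
      ring
    rw [mul_add, mul_one, mul_left_comm, hg]
    ring
  have h2 : A * ((‖1 - w‖ ^ 2 : ℝ) : ℂ) = (1 + w - 2 * w ^ (h + 1)) * conj (1 - w) := by
    rw [← h1, ← Complex.normSq_eq_norm_sq, ← Complex.mul_conj]
    ring
  have h3 := congrArg Complex.re h2
  rw [Complex.re_mul_ofReal] at h3
  have h4 : ((1 + w - 2 * w ^ (h + 1)) * conj (1 - w)).re =
      1 - ‖w‖ ^ 2 - (2 * w ^ (h + 1) * conj (1 - w)).re := by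
    have : (1 + w - 2 * w ^ (h + 1)) * conj (1 - w) =
        (1 + w) * conj (1 - w) - 2 * w ^ (h + 1) * conj (1 - w) := by ring
    rw [this, Complex.sub_re]
    congr 1
    rw [← Complex.normSq_eq_norm_sq, Complex.normSq_apply]
    simp
    ring
  have h5 : (2 * w ^ (h + 1) * conj (1 - w)).re ≤ 4 * R ^ (h + 1) := by
    calc (2 * w ^ (h + 1) * conj (1 - w)).re ≤ ‖2 * w ^ (h + 1) * conj (1 - w)‖ :=
          Complex.re_le_norm _
      _ = 2 * ‖w‖ ^ (h + 1) * ‖1 - w‖ := by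
          rw [norm_mul, norm_mul, norm_pow, Complex.norm_conj]; norm_num
      _ ≤ 2 * R ^ (h + 1) * 2 := by
          have : ‖1 - w‖ ≤ 2 := by
            calc ‖1 - w‖ ≤ ‖(1:ℂ)‖ + ‖w‖ := norm_sub_le _ _
              _ ≤ 1 + 1 := by rw [norm_one]; linarith
              _ = 2 := by norm_num
          have h7 : ‖w‖ ^ (h + 1) ≤ R ^ (h + 1) := pow_le_pow_left₀ hw0 hwn _
          have h8 : 0 ≤ ‖w‖ ^ (h + 1) := by positivity
          exact mul_le_mul (by linarith) this (norm_nonneg _) (by linarith)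
      _ = 4 * R ^ (h + 1) := by ring
  have h6 : ‖w‖ ^ 2 ≤ R ^ 2 := pow_le_pow_left₀ hw0 hwn _
  have h7 : 0 ≤ A.re * ‖1 - w‖ ^ 2 := by rw [h3, h4]; linarith
  have h8 : 0 < ‖1 - w‖ ^ 2 := by
    have : 1 - w ≠ 0 := by
      intro h0
      have : w = 1 := by linear_combination -h0
      rw [this, norm_one] at hwn
      linarith
    positivity
  exact nonneg_of_mul_nonneg_left h7 h8


/-! ### Products of truncated kernels on a finite cyclic group -/

lemma addChar_sum {A : Type*} [AddCommMonoid A] (ψ : AddChar A ℂ) {κ : Type*} (s : Finset κ)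
    (f : κ → A) : ψ (∑ i ∈ s, f i) = ∏ i ∈ s, ψ (f i) := by
  classical
  induction s using Finset.induction_on with
  | empty => simp
  | insert i s hi ih => rw [Finset.sum_insert hi, Finset.prod_insert hi,
      AddChar.map_add_eq_mul, ih]

section cyclic

variable {ι : Type} [Fintype ι] [DecidableEq ι]

/-- the digit vectors with entries in `[-h, h]` -/
def SS (ι : Type) [Fintype ι] [DecidableEq ι] (h : ℕ) : Finset (ι → ℤ) :=
  Fintype.piFinset fun _ => Finset.Icc (-(h : ℤ)) h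

lemma mem_SS {h : ℕ} {k : ι → ℤ} : k ∈ SS ι h ↔ ∀ i, |k i| ≤ h := by
  simp [SS, Fintype.mem_piFinset, abs_le]

variable {Q : ℕ} [NeZero Q]

/-- the frequency of a digit vector -/
def freq (Q : ℕ) (M : ι → ℤ) (k : ι → ℤ) : ZMod Q := ((∑ i, k i * M i : ℤ) : ZMod Q)

/-- the digits are independent -/
def Dissoc (Q : ℕ) (M : ι → ℤ) (h : ℕ) : Prop :=
  ∀ k ∈ SS ι h, ∀ k' ∈ SS ι h, freq Q M k = freq Q M k' → k = k'

lemma exists_dissoc (ι : Type) [Fintype ι] [DecidableEq ι] (h : ℕ) :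
    ∃ (Q : ℕ) (M : ι → ℤ), Q ≠ 0 ∧ Dissoc Q M h := by
  -- distinct primes larger than `2 h`
  have hinf : {p : ℕ | p.Prime ∧ 2 * h < p}.Infinite := by
    rw [Set.infinite_iff_exists_gt]
    intro a
    obtain ⟨p, hp1, hp2⟩ := Nat.exists_infinite_primes (max a (2 * h) + 1)
    refine ⟨p, ⟨hp2, ?_⟩, ?_⟩
    · have := le_max_right a (2 * h); omega
    · have := le_max_left a (2 * h); omega
  obtain ⟨g, hg⟩ : ∃ g : ι → ℕ, Function.Injective g ∧ ∀ i, (g i).Prime ∧ 2 * h < g i := by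
    have e := Fintype.equivFin ι
    have emb := hinf.natEmbedding
    refine ⟨fun i => (emb (e i : ℕ) : ℕ), ?_, fun i => (emb (e i : ℕ)).2⟩
    intro i j hij
    exact e.injective (Fin.ext (emb.injective (Subtype.ext hij)))
  obtain ⟨hinj, hg⟩ := hg
  refine ⟨∏ i, g i, fun i => ((∏ j ∈ Finset.univ.erase i, g j : ℕ) : ℤ),
    Finset.prod_ne_zero_iff.2 fun i _ => (hg i).1.ne_zero, ?_⟩
  intro k hk k' hk' hkk
  rw [mem_SS] at hk hk'
  unfold freq at hkk
  rw [ZMod.intCast_eq_intCast_iff_dvd_sub] at hkk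
  rw [← Finset.sum_sub_distrib] at hkk
  funext i
  have h1 : ((g i : ℕ) : ℤ) ∣ ((∏ i, g i : ℕ) : ℤ) := by
    exact_mod_cast Finset.dvd_prod_of_mem g (Finset.mem_univ i)
  have h2 := h1.trans hkk
  have h3 : ((g i : ℕ) : ℤ) ∣ (k' i - k i) * ((∏ j ∈ Finset.univ.erase i, g j : ℕ) : ℤ) := by
    rw [← Finset.add_sum_erase _ _ (Finset.mem_univ i)] at h2
    have h4 : ((g i : ℕ) : ℤ) ∣ ∑ x ∈ Finset.univ.erase i,
        (k' x * ((∏ j ∈ Finset.univ.erase x, g j : ℕ) : ℤ) -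
          k x * ((∏ j ∈ Finset.univ.erase x, g j : ℕ) : ℤ)) := by
      apply Finset.dvd_sum
      intro x hx
      rw [← sub_mul]
      apply Dvd.dvd.mul_left
      have : g i ∣ ∏ j ∈ Finset.univ.erase x, g j := by
        apply Finset.dvd_prod_of_mem
        simp only [Finset.mem_erase, Finset.mem_univ, and_true]
        exact fun h => (Finset.ne_of_mem_erase hx) h.symm
      exact_mod_cast this
    have h5 := (dvd_add_left h4).1 h2
    rw [sub_mul]
    exact h5
  have hcop : IsCoprime ((g i : ℕ) : ℤ) ((∏ j ∈ Finset.univ.erase i, g j : ℕ) : ℤ) := by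
    rw [Nat.isCoprime_iff_coprime]
    apply Nat.Coprime.prod_right
    intro j hj
    rw [Nat.coprime_primes (hg i).1 (hg j).1]
    intro h
    exact (Finset.ne_of_mem_erase hj) (hinj h).symm
  have h6 : ((g i : ℕ) : ℤ) ∣ (k' i - k i) := hcop.dvd_of_dvd_mul_right h3
  have h7 : |k' i - k i| < ((g i : ℕ) : ℤ) := by
    have a1 := hk i
    have a2 := hk' i
    have a3 : ((2 * h : ℕ) : ℤ) < ((g i : ℕ) : ℤ) := by exact_mod_cast (hg i).2
    push_cast at a3
    calc |k' i - k i| ≤ |k' i| + |k i| := abs_sub _ _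
      _ ≤ h + h := by linarith
      _ < _ := by linarith
  have h8 := Int.eq_zero_of_abs_lt_dvd h6 h7
  linarith

open ZMod in
/-- product kernel -/
def KK (Q : ℕ) [NeZero Q] (M : ι → ℤ) (h : ℕ) (X : ι → ℂ) (u : ZMod Q) : ℂ :=
  ∏ i, ker h (X i) (stdAddChar ((M i : ZMod Q) * u))

open ZMod in
lemma KK_expand (M : ι → ℤ) (h : ℕ) (X : ι → ℂ) (u : ZMod Q) :
    KK Q M h X u = ∑ k ∈ SS ι h, (∏ i, xp (X i) (k i)) * stdAddChar (-(freq Q M k * u)) := by
  unfold KK ker SS
  rw [Finset.prod_univ_sum]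
  apply Finset.sum_congr rfl
  intro k _
  rw [Finset.prod_mul_distrib]
  congr 1
  have h1 : -(freq Q M k * u) = ∑ i, (-(k i)) • ((M i : ZMod Q) * u) := by
    unfold freq
    push_cast
    rw [Finset.sum_mul, ← Finset.sum_neg_distrib]
    apply Finset.sum_congr rfl
    intro i _
    rw [zsmul_eq_mul]
    push_cast
    ring
  rw [h1, addChar_sum]
  apply Finset.prod_congr rfl
  intro i _
  rw [AddChar.map_zsmul_eq_zpow]

/-- normalized weighted sum -/
def EE (Q : ℕ) [NeZero Q] (M : ι → ℤ) (h : ℕ) (X : ι → ℂ) (H : ZMod Q → ℂ) : ℂ :=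
  (Q : ℂ)⁻¹ * ∑ u, KK Q M h X u * H u

open ZMod in
/-- Fourier coefficient -/
def coef (H : ZMod Q → ℂ) (t : ZMod Q) : ℂ := (Q : ℂ)⁻¹ * ∑ u, H u * stdAddChar (-(t * u))

open ZMod in
lemma EE_eq (M : ι → ℤ) (h : ℕ) (X : ι → ℂ) (H : ZMod Q → ℂ) :
    EE Q M h X H = ∑ k ∈ SS ι h, (∏ i, xp (X i) (k i)) * coef H (freq Q M k) := by
  unfold EE coef
  simp_rw [KK_expand, Finset.sum_mul, Finset.mul_sum]
  rw [Finset.sum_comm]
  apply Finset.sum_congr rfl
  intro k _
  apply Finset.sum_congr rfl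
  intro u _
  ring

open ZMod in
lemma coef_char (s t : ZMod Q) :
    coef (fun u => stdAddChar (s * u)) t = if s = t then 1 else 0 := by
  unfold coef
  have h1 : ∀ u : ZMod Q, (stdAddChar (s * u) : ℂ) * stdAddChar (-(t * u)) =
      stdAddChar (u * (s - t)) := by
    intro u
    rw [← AddChar.map_add_eq_mul]
    congr 1
    ring
  simp_rw [h1]
  rw [AddChar.sum_mulShift _ (isPrimitive_stdAddChar Q), ZMod.card]
  have hQ : (Q : ℂ) ≠ 0 := by exact_mod_cast NeZero.ne Q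
  by_cases h : s = t
  · simp [h, hQ]
  · have : s - t ≠ 0 := sub_ne_zero.2 h
    simp [h, this]

open ZMod in
lemma EE_char {M : ι → ℤ} {h : ℕ} (hM : Dissoc Q M h) (X : ι → ℂ) {k : ι → ℤ} (hk : k ∈ SS ι h) :
    EE Q M h X (fun u => stdAddChar (freq Q M k * u)) = ∏ i, xp (X i) (k i) := by
  rw [EE_eq]
  simp_rw [coef_char]
  rw [Finset.sum_eq_single k]
  · simp
  · intro k' hk' hne
    rw [if_neg, mul_zero]
    intro h
    exact hne (hM k hk k' hk' h).symm
  · intro h; exact absurd hk h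

lemma sum_coef (H : ZMod Q → ℂ) : ∑ t, coef H t = H 0 := by
  unfold coef
  rw [← Finset.mul_sum, Finset.sum_comm]
  have hQ : (Q : ℂ) ≠ 0 := by exact_mod_cast NeZero.ne Q
  have h1 : ∀ u : ZMod Q, ∑ t : ZMod Q, H u * ZMod.stdAddChar (-(t * u)) =
      if u = 0 then H u * Q else 0 := by
    intro u
    rw [← Finset.mul_sum]
    have h2 : ∀ t : ZMod Q, (ZMod.stdAddChar (-(t * u)) : ℂ) = ZMod.stdAddChar (t * (-u)) := by
      intro t; congr 1; ring
    simp_rw [h2]
    rw [AddChar.sum_mulShift _ (ZMod.isPrimitive_stdAddChar Q), ZMod.card]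
    by_cases h : u = 0
    · simp [h]
    · simp [h]
  simp_rw [h1]
  simp
  field_simp

/-- the coordinates `z_i` on the cyclic group -/
def zz (Q : ℕ) [NeZero Q] (M : ι → ℤ) (i : ι) (u : ZMod Q) : ℂ :=
  ZMod.stdAddChar ((M i : ZMod Q) * u)

lemma norm_stdAddChar (a : ZMod Q) : ‖(ZMod.stdAddChar a : ℂ)‖ = 1 := by
  rw [ZMod.stdAddChar_apply]; exact Circle.norm_coe _

lemma conj_stdAddChar (a : ZMod Q) : conj (ZMod.stdAddChar a : ℂ) = ZMod.stdAddChar (-a) := by
  rw [ZMod.stdAddChar_apply, ZMod.stdAddChar_apply, ← Circle.coe_inv_eq_conj, AddChar.map_neg_eq_inv]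

lemma norm_zz (M : ι → ℤ) (i : ι) (u : ZMod Q) : ‖zz Q M i u‖ = 1 := norm_stdAddChar _

lemma EE_add (M : ι → ℤ) (h : ℕ) (X : ι → ℂ) (H H' : ZMod Q → ℂ) :
    EE Q M h X (fun u => H u + H' u) = EE Q M h X H + EE Q M h X H' := by
  unfold EE
  rw [← mul_add, ← Finset.sum_add_distrib]
  congr 1
  apply Finset.sum_congr rfl
  intro u _
  ring

lemma EE_const_mul (M : ι → ℤ) (h : ℕ) (X : ι → ℂ) (c : ℂ) (H : ZMod Q → ℂ) :
    EE Q M h X (fun u => c * H u) = c * EE Q M h X H := by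
  unfold EE
  simp_rw [Finset.mul_sum]
  apply Finset.sum_congr rfl
  intro u _
  ring

lemma EE_sum (M : ι → ℤ) (h : ℕ) (X : ι → ℂ) {κ : Type*} (s : Finset κ) (H : κ → ZMod Q → ℂ) :
    EE Q M h X (fun u => ∑ i ∈ s, H i u) = ∑ i ∈ s, EE Q M h X (H i) := by
  unfold EE
  rw [← Finset.mul_sum, Finset.sum_comm]
  congr 1
  apply Finset.sum_congr rfl
  intro u _
  rw [Finset.mul_sum]

variable {M : ι → ℤ} {h : ℕ} (hM : Dissoc Q M h) (h1 : 1 ≤ h) (X : ι → ℂ)
include hM

lemma EE_one : EE Q M h X (fun _ => 1) = 1 := by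
  have h0 : (0 : ι → ℤ) ∈ SS ι h := by rw [mem_SS]; intro i; simp
  have := EE_char hM X h0
  simpa [freq, xp_zero] using this

include h1

omit hM in
lemma single_mem (i : ι) : (Pi.single i 1 : ι → ℤ) ∈ SS ι h := by
  rw [mem_SS]
  intro j
  by_cases hj : j = i
  · subst hj; simp; omega
  · rw [Pi.single_eq_of_ne hj]; simp

omit hM in
lemma neg_single_mem (i : ι) : (-Pi.single i 1 : ι → ℤ) ∈ SS ι h := by
  rw [mem_SS]
  intro j
  rw [Pi.neg_apply, abs_neg]
  exact (mem_SS.1 (single_mem h1 i)) j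

omit hM h1 in
lemma freq_single (i : ι) : freq Q M (Pi.single i 1) = (M i : ZMod Q) := by
  unfold freq
  rw [Finset.sum_eq_single i]
  · simp
  · intro j _ hj; rw [Pi.single_eq_of_ne hj, zero_mul]
  · simp

omit hM h1 in
lemma freq_neg (k : ι → ℤ) : freq Q M (-k) = - freq Q M k := by
  unfold freq
  rw [← Int.cast_neg, ← Finset.sum_neg_distrib]
  congr 1
  apply Finset.sum_congr rfl
  intro i _
  simp

omit hM h1 in
lemma freq_add (k k' : ι → ℤ) : freq Q M (k + k') = freq Q M k + freq Q M k' := by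
  unfold freq
  rw [← Int.cast_add, ← Finset.sum_add_distrib]
  congr 1
  apply Finset.sum_congr rfl
  intro i _
  simp [add_mul]

lemma EE_zz (i : ι) : EE Q M h X (fun u => zz Q M i u) = X i := by
  have := EE_char hM X (single_mem h1 i)
  rw [freq_single] at this
  rw [show (fun u => zz Q M i u) = fun u => ZMod.stdAddChar ((M i : ZMod Q) * u) from rfl, this]
  rw [Finset.prod_eq_single i]
  · simp [xp_one]
  · intro j _ hj; rw [Pi.single_eq_of_ne hj, xp_zero]
  · simp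

lemma EE_conj_zz (i : ι) : EE Q M h X (fun u => conj (zz Q M i u)) = conj (X i) := by
  have := EE_char hM X (neg_single_mem h1 i)
  rw [freq_neg, freq_single] at this
  have e : (fun u => conj (zz Q M i u)) = fun u => ZMod.stdAddChar (-(M i : ZMod Q) * u) := by
    funext u
    rw [zz, conj_stdAddChar, neg_mul]
  rw [e, this]
  rw [Finset.prod_eq_single i]
  · simp [xp_neg_one]
  · intro j _ hj; rw [Pi.neg_apply, Pi.single_eq_of_ne hj, neg_zero, xp_zero]
  · simp

lemma EE_zz_conj_zz {i j : ι} (hij : i ≠ j) :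
    EE Q M h X (fun u => zz Q M i u * conj (zz Q M j u)) = X i * conj (X j) := by
  have hmem : (Pi.single i 1 + -Pi.single j 1 : ι → ℤ) ∈ SS ι h := by
    rw [mem_SS]
    intro l
    rw [Pi.add_apply, Pi.neg_apply]
    have hh : (1 : ℤ) ≤ h := by exact_mod_cast h1
    by_cases hl : l = i
    · subst hl
      rw [Pi.single_eq_same, Pi.single_eq_of_ne hij]
      simpa using hh
    · rw [Pi.single_eq_of_ne hl]
      by_cases hl' : l = j
      · subst hl'
        rw [Pi.single_eq_same]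
        simpa using hh
      · rw [Pi.single_eq_of_ne hl']
        simp
  have := EE_char hM X hmem
  rw [freq_add, freq_neg, freq_single, freq_single] at this
  have e : (fun u => zz Q M i u * conj (zz Q M j u)) =
      fun u => ZMod.stdAddChar (((M i : ZMod Q) + -(M j : ZMod Q)) * u) := by
    funext u
    rw [zz, zz, conj_stdAddChar, ← AddChar.map_add_eq_mul]
    congr 1
    ring
  rw [e, this]
  have hsub : ∏ l, xp (X l) ((Pi.single i 1 + -Pi.single j 1 : ι → ℤ) l) =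
      ∏ l ∈ {i, j}, xp (X l) ((Pi.single i 1 + -Pi.single j 1 : ι → ℤ) l) := by
    symm
    apply Finset.prod_subset (Finset.subset_univ _)
    intro l _ hl
    simp only [Finset.mem_insert, Finset.mem_singleton, not_or] at hl
    rw [Pi.add_apply, Pi.neg_apply, Pi.single_eq_of_ne hl.1, Pi.single_eq_of_ne hl.2]
    simp [xp_zero]
  rw [hsub, Finset.prod_pair hij]
  simp [hij, hij.symm, xp_one, xp_neg_one]

/-- the variance of an average of coordinates with the same mean -/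
lemma EE_variance (A : Finset ι) (hA : 0 < A.card) (x : ℂ) (hx : ∀ i ∈ A, X i = x) :
    EE Q M h X (fun u => (((A.card : ℂ)⁻¹ * ∑ i ∈ A, zz Q M i u) - x) *
      conj (((A.card : ℂ)⁻¹ * ∑ i ∈ A, zz Q M i u) - x)) = (A.card : ℂ)⁻¹ * (1 - x * conj x) := by
  have hc : (A.card : ℂ) ≠ 0 := by exact_mod_cast hA.ne'
  have e : (fun u => (((A.card : ℂ)⁻¹ * ∑ i ∈ A, zz Q M i u) - x) *
      conj (((A.card : ℂ)⁻¹ * ∑ i ∈ A, zz Q M i u) - x)) =
      fun u => ((A.card : ℂ)⁻¹ * (A.card : ℂ)⁻¹) * ∑ i ∈ A, ∑ j ∈ A,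
        (zz Q M i u * conj (zz Q M j u) + ((-conj x) * zz Q M i u +
          ((-x) * conj (zz Q M j u) + (x * conj x) * 1))) := by
    funext u
    have h2 : ((A.card : ℂ)⁻¹ * ∑ i ∈ A, zz Q M i u) - x =
        (A.card : ℂ)⁻¹ * ∑ i ∈ A, (zz Q M i u - x) := by
      rw [Finset.sum_sub_distrib, Finset.sum_const, nsmul_eq_mul, mul_sub]
      field_simp
    rw [h2, map_mul, map_inv₀, Complex.conj_natCast, map_sum]
    rw [mul_mul_mul_comm, Finset.sum_mul_sum]
    congr 1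
    apply Finset.sum_congr rfl
    intro i _
    apply Finset.sum_congr rfl
    intro j _
    rw [map_sub]
    ring
  rw [e, EE_const_mul, EE_sum]
  have h3 : ∀ i ∈ A, EE Q M h X (fun u => ∑ j ∈ A,
        (zz Q M i u * conj (zz Q M j u) + ((-conj x) * zz Q M i u +
          ((-x) * conj (zz Q M j u) + (x * conj x) * 1)))) = 1 - x * conj x := by
    intro i hi
    rw [EE_sum]
    have h4 : ∀ j ∈ A, EE Q M h X (fun u => (zz Q M i u * conj (zz Q M j u) +
        ((-conj x) * zz Q M i u + ((-x) * conj (zz Q M j u) + (x * conj x) * 1)))) =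
        if i = j then 1 - x * conj x else 0 := by
      intro j hj
      rw [EE_add, EE_add, EE_add, EE_const_mul, EE_const_mul, EE_const_mul, EE_one hM,
        EE_zz hM h1, EE_conj_zz hM h1, hx i hi, hx j hj]
      split_ifs with hij
      · subst hij
        have h5 : (fun u => zz Q M i u * conj (zz Q M i u)) = fun _ => 1 := by
          funext u
          rw [Complex.mul_conj, Complex.normSq_eq_norm_sq, norm_zz]
          simp
        rw [h5, EE_one hM]
        ring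
      · rw [EE_zz_conj_zz hM h1 X hij, hx i hi, hx j hj]
        ring
    rw [Finset.sum_congr rfl h4]
    simp [hi]
  rw [Finset.sum_congr rfl h3, Finset.sum_const, nsmul_eq_mul]
  field_simp

omit hM h1 in
/-- for small `X` the weights are nonnegative -/
lemma EE_weights (R : ℝ) (hR : R < 1) (hX : ∀ i, ‖X i‖ ≤ R) (hh : 4 * R ^ (h + 1) ≤ 1 - R ^ 2) :
    ∃ w : ZMod Q → ℝ, (∀ u, 0 ≤ w u) ∧ ∀ H : ZMod Q → ℂ, EE Q M h X H = ∑ u, (w u : ℂ) * H u := by
  have h2 : ∀ (u : ZMod Q) (i : ι), ∃ r : ℝ, 0 ≤ r ∧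
      ker h (X i) (ZMod.stdAddChar ((M i : ZMod Q) * u)) = r :=
    fun u i => ker_nonneg h (X i) _ (norm_stdAddChar _) R hR (hX i) hh
  choose r hr0 hr using h2
  refine ⟨fun u => (Q : ℝ)⁻¹ * ∏ i, r u i, fun u => ?_, fun H => ?_⟩
  · have : 0 ≤ ∏ i, r u i := Finset.prod_nonneg fun i _ => hr0 u i
    positivity
  · unfold EE KK
    rw [Finset.mul_sum]
    apply Finset.sum_congr rfl
    intro u _
    simp_rw [hr]
    push_cast
    ring

/-- law of large numbers -/
lemma EE_lln (R : ℝ) (hR : R < 1) (hX : ∀ i, ‖X i‖ ≤ R) (hh : 4 * R ^ (h + 1) ≤ 1 - R ^ 2)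
    (A B : Finset ι) (hA : 0 < A.card) (hB : 0 < B.card) (x y : ℂ) (hx : ∀ i ∈ A, X i = x)
    (hy : ∀ i ∈ B, X i = y) (f : ZMod Q → ℂ) (F0 : ℂ) (ε C : ℝ) (hC : 0 ≤ C)
    (hf : ∀ u, ‖f u - F0‖ ≤ ε + C * (‖((A.card : ℂ)⁻¹ * ∑ i ∈ A, zz Q M i u) - x‖ ^ 2 +
      ‖((B.card : ℂ)⁻¹ * ∑ i ∈ B, zz Q M i u) - y‖ ^ 2)) :
    ‖EE Q M h X f - F0‖ ≤ ε + C * ((A.card : ℝ)⁻¹ + (B.card : ℝ)⁻¹) := by
  obtain ⟨w, hw0, hw⟩ := EE_weights (Q := Q) (M := M) (h := h) X R hR hX hh
  have hw1 : ∑ u, w u = 1 := by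
    have := EE_one hM X
    rw [hw] at this
    simp only [mul_one] at this
    exact_mod_cast this
  have hvar : ∀ (D : Finset ι) (hD : 0 < D.card) (x : ℂ) (hx : ∀ i ∈ D, X i = x),
      ∑ u, w u * ‖((D.card : ℂ)⁻¹ * ∑ i ∈ D, zz Q M i u) - x‖ ^ 2 ≤ (D.card : ℝ)⁻¹ := by
    intro D hD x hx
    have h2 := EE_variance hM h1 X D hD x hx
    rw [hw] at h2
    have h3 : ∑ u, w u * ‖((D.card : ℂ)⁻¹ * ∑ i ∈ D, zz Q M i u) - x‖ ^ 2 =
        (D.card : ℝ)⁻¹ * (1 - ‖x‖ ^ 2) := by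
      apply Complex.ofReal_injective
      push_cast
      have h4 : ∀ z : ℂ, z * conj z = (‖z‖ : ℂ) ^ 2 := by
        intro z
        rw [Complex.mul_conj, Complex.normSq_eq_norm_sq]
        push_cast; rfl
      simp_rw [h4] at h2
      exact h2
    rw [h3]
    have h5 : 0 ≤ (D.card : ℝ)⁻¹ := by positivity
    have h6 : 0 ≤ ‖x‖ ^ 2 := by positivity
    nlinarith
  have e : EE Q M h X f - F0 = ∑ u, (w u : ℂ) * (f u - F0) := by
    rw [hw]
    simp_rw [mul_sub]
    rw [Finset.sum_sub_distrib, ← Finset.sum_mul]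
    have : (∑ u, (w u : ℂ)) = 1 := by exact_mod_cast hw1
    rw [this, one_mul]
  rw [e]
  calc ‖∑ u, (w u : ℂ) * (f u - F0)‖ ≤ ∑ u, ‖(w u : ℂ) * (f u - F0)‖ := norm_sum_le _ _
    _ = ∑ u, w u * ‖f u - F0‖ := by
        apply Finset.sum_congr rfl
        intro u _
        rw [norm_mul, Complex.norm_real, Real.norm_of_nonneg (hw0 u)]
    _ ≤ ∑ u, w u * (ε + C * (‖((A.card : ℂ)⁻¹ * ∑ i ∈ A, zz Q M i u) - x‖ ^ 2 +
      ‖((B.card : ℂ)⁻¹ * ∑ i ∈ B, zz Q M i u) - y‖ ^ 2)) :=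
        Finset.sum_le_sum fun u _ => mul_le_mul_of_nonneg_left (hf u) (hw0 u)
    _ = ε + C * (∑ u, w u * ‖((A.card : ℂ)⁻¹ * ∑ i ∈ A, zz Q M i u) - x‖ ^ 2 +
        ∑ u, w u * ‖((B.card : ℂ)⁻¹ * ∑ i ∈ B, zz Q M i u) - y‖ ^ 2) := by
        rw [← Finset.sum_add_distrib, Finset.mul_sum]
        have : ε = ∑ u, w u * ε := by rw [← Finset.sum_mul, hw1, one_mul]
        conv_rhs => rw [this]
        rw [← Finset.sum_add_distrib]
        apply Finset.sum_congr rfl
        intro u _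
        ring
    _ ≤ ε + C * ((A.card : ℝ)⁻¹ + (B.card : ℝ)⁻¹) := by
        have a1 := hvar A hA x hx
        have a2 := hvar B hB y hy
        gcongr

end cyclic

/-! ### Positivity on the cyclic group -/

section positivity

variable {ι : Type} [Fintype ι] [DecidableEq ι] {Q : ℕ} [NeZero Q]

/-- averages of the coordinates over a finite set -/
def av (Q : ℕ) [NeZero Q] (M : ι → ℤ) (A : Finset ι) (u : ZMod Q) : ℂ :=
  (A.card : ℂ)⁻¹ * ∑ i ∈ A, zz Q M i u

lemma exists_measure_av (M : ι → ℤ) (A : Finset ι) (hA : 0 < A.card) :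
    ∃ μ : Measure ℝ, IsProbabilityMeasure μ ∧
      ∀ w : ℤ, charFun μ (w : ℝ) = av Q M A (w : ZMod Q) := by
  have hA' : (A.card : ℝ) ≠ 0 := by exact_mod_cast hA.ne'
  obtain ⟨μ, h1, h2⟩ := exists_finite_measure (ι := A) (fun _ => (A.card : ℝ)⁻¹)
    (fun _ => by positivity) (by simp [hA'])
    (fun i => 2 * Real.pi * M i / Q)
  refine ⟨μ, h1, fun w => ?_⟩
  rw [h2, av, Finset.mul_sum, ← Finset.sum_coe_sort A]
  apply Finset.sum_congr rfl
  intro i _
  have e : ((M i : ZMod Q) * (w : ZMod Q)) = ((M i * w : ℤ) : ZMod Q) := by push_cast; rfl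
  rw [zz, e, ZMod.stdAddChar_coe]
  push_cast
  congr 2
  ring

lemma coef_nonneg {F : ℂ → ℂ → ℂ} (hF : Adm F) (M : ι → ℤ) (A B : Finset ι)
    (hA : 0 < A.card) (hB : 0 < B.card) :
    (∀ t, ∃ r : ℝ, 0 ≤ r ∧ coef (fun u => F (av Q M A u) (av Q M B u)) t = r) ∧
      (∀ u, ‖F (av Q M A u) (av Q M B u)‖ ≤ 1) := by
  obtain ⟨μ, hμ, hμ'⟩ := exists_measure_av (Q := Q) M A hA
  obtain ⟨ν, hν, hν'⟩ := exists_measure_av (Q := Q) M B hB
  obtain ⟨ρ, hρ, hρ'⟩ := hF μ ν hμ hν
  have key : ∀ w : ℤ, charFun ρ (w : ℝ) = F (av Q M A (w : ZMod Q)) (av Q M B (w : ZMod Q)) := by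
    intro w; rw [hρ', hμ', hν']
  constructor
  · intro t
    obtain ⟨r, hr0, hr⟩ := charFun_posdef ρ (Finset.univ : Finset (ZMod Q))
      (fun k => (k.val : ℝ)) (fun k => ZMod.stdAddChar (-(t * k)))
    have hQ : (Q : ℂ) ≠ 0 := by exact_mod_cast NeZero.ne Q
    refine ⟨r / (Q * Q), by positivity, ?_⟩
    have h1 : ∀ k l : ZMod Q, (ZMod.stdAddChar (-(t * k)) : ℂ) *
        conj (ZMod.stdAddChar (-(t * l)) : ℂ) * charFun ρ ((k.val : ℝ) - (l.val : ℝ)) =
        (fun u => F (av Q M A u) (av Q M B u) * ZMod.stdAddChar (-(t * u))) (k - l) := by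
      intro k l
      have e : ((k.val : ℝ) - (l.val : ℝ)) = (((k.val : ℤ) - (l.val : ℤ) : ℤ) : ℝ) := by
        push_cast; rfl
      rw [e, key]
      have e2 : (((k.val : ℤ) - (l.val : ℤ) : ℤ) : ZMod Q) = k - l := by
        push_cast
        rw [ZMod.natCast_zmod_val, ZMod.natCast_zmod_val]
      rw [e2, conj_stdAddChar, ← AddChar.map_add_eq_mul]
      have e3 : -(t * k) + - -(t * l) = -(t * (k - l)) := by ring
      rw [e3]
      ring
    simp_rw [h1] at hr
    rw [Finset.sum_comm] at hr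
    have h2 : ∀ l : ZMod Q, ∑ k : ZMod Q,
        (fun u => F (av Q M A u) (av Q M B u) * ZMod.stdAddChar (-(t * u))) (k - l) =
        ∑ u : ZMod Q, F (av Q M A u) (av Q M B u) * ZMod.stdAddChar (-(t * u)) := by
      intro l
      exact Equiv.sum_comp (Equiv.subRight l)
        (fun u => F (av Q M A u) (av Q M B u) * ZMod.stdAddChar (-(t * u)))
    simp_rw [h2] at hr
    rw [Finset.sum_const, Finset.card_univ, ZMod.card, nsmul_eq_mul] at hr
    unfold coef
    push_cast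
    rw [← hr]
    field_simp
  · intro u
    have := norm_charFun_le_one (μ := ρ) ((u.val : ℤ) : ℝ)
    rw [key] at this
    have e2 : (((u.val : ℤ)) : ZMod Q) = u := by
      push_cast
      rw [ZMod.natCast_zmod_val]
    rwa [e2] at this

lemma av_zero (M : ι → ℤ) (A : Finset ι) (hA : 0 < A.card) : av Q M A 0 = 1 := by
  have hc : (A.card : ℂ) ≠ 0 := by exact_mod_cast hA.ne'
  simp [av, zz, hc]

lemma F_one {F : ℂ → ℂ → ℂ} (hF : Adm F) : F 1 1 = 1 := by
  obtain ⟨ρ, hρ, hρ'⟩ := hF (Measure.dirac 0) (Measure.dirac 0) inferInstance inferInstance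
  have := hρ' 0
  simpa using this.symm

end positivity

/-! ### Continuity in the open bidisc -/

section continuity

/-- every point of a smaller disc is an average of roots of unity of a fixed order -/
lemma exists_rep (R : ℝ) (hR0 : 0 ≤ R) (hR : R < 1) :
    ∃ (Q : ℕ) (κ : Type) (_ : Fintype κ) (K : κ → ℤ), Q ≠ 0 ∧ ∀ v : ℂ, ‖v‖ ≤ R →
      ∃ p : κ → ℝ, (∀ g, 0 ≤ p g) ∧ ∑ g, p g = 1 ∧
        ∑ g, (p g : ℂ) * Complex.exp (((2 * Real.pi * K g / Q : ℝ) : ℂ) * Complex.I) = v := by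
  obtain ⟨h, hh⟩ : ∃ h : ℕ, 4 * R ^ (h + 1 + 1) ≤ 1 - R ^ 2 := by
    have h1 : Tendsto (fun n : ℕ => 4 * R ^ n) atTop (𝓝 (4 * 0)) :=
      (tendsto_pow_atTop_nhds_zero_of_lt_one hR0 hR).const_mul 4
    rw [mul_zero] at h1
    have h2 : (0 : ℝ) < 1 - R ^ 2 := by nlinarith
    obtain ⟨n, hn⟩ := (h1.eventually (gt_mem_nhds h2)).exists_forall_of_atTop
    exact ⟨n, (hn (n + 1 + 1) (by omega)).le⟩
  obtain ⟨Q, M, hQ, hM⟩ := exists_dissoc Unit (h + 1)
  have : NeZero Q := ⟨hQ⟩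
  refine ⟨Q, ZMod Q, inferInstance, fun g => M () * (g.val : ℤ), hQ, ?_⟩
  intro v hv
  obtain ⟨w, hw0, hw⟩ := EE_weights (Q := Q) (M := M) (h := h + 1) (fun _ : Unit => v) R hR
    (fun _ => hv) hh
  refine ⟨w, hw0, ?_, ?_⟩
  · have := EE_one hM (fun _ : Unit => v)
    rw [hw] at this
    simp only [mul_one] at this
    exact_mod_cast this
  · have := EE_zz hM (by omega) (fun _ : Unit => v) ()
    rw [hw] at this
    rw [← this]
    apply Finset.sum_congr rfl
    intro g _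
    congr 1
    have e : (M () : ZMod Q) * g = ((M () * (g.val : ℤ) : ℤ) : ZMod Q) := by
      push_cast; rw [ZMod.natCast_zmod_val]
    rw [zz, e, ZMod.stdAddChar_coe]
    push_cast
    congr 1
    ring

lemma exp_int (K : ℤ) : Complex.exp (((2 * Real.pi * K : ℝ) : ℂ) * Complex.I) = 1 := by
  rw [Complex.exp_eq_one_iff]
  exact ⟨K, by push_cast; ring⟩

lemma exists_pair {R : ℝ} {Q : ℕ} {κ : Type} [Fintype κ] {K : κ → ℤ} (hQ : Q ≠ 0)
    (hrep : ∀ v : ℂ, ‖v‖ ≤ R → ∃ p : κ → ℝ, (∀ g, 0 ≤ p g) ∧ ∑ g, p g = 1 ∧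
        ∑ g, (p g : ℂ) * Complex.exp (((2 * Real.pi * K g / Q : ℝ) : ℂ) * Complex.I) = v)
    (η : ℝ) (hη : 0 < Real.sin η) (x x' : ℂ)
    (hx : ‖x‖ + (‖x - x'‖ + ‖x‖ * (1 - Real.cos η)) / Real.sin η ≤ R) :
    ∃ μ : Measure ℝ, IsProbabilityMeasure μ ∧ charFun μ ((1 : ℝ) / Q) = x ∧
      charFun μ ((1 : ℝ) / Q - 1) = x' ∧ charFun μ (1 : ℝ) = Real.cos η := by
  set e : ℂ := Complex.exp ((η : ℂ) * Complex.I) with he
  set e' : ℂ := Complex.exp (-((η : ℂ) * Complex.I)) with he'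
  have hee : e * e' = 1 := by rw [he, he', ← Complex.exp_add]; simp
  have hcos : ((Real.cos η : ℝ) : ℂ) = (e + e') / 2 := by
    rw [Complex.ofReal_cos, Complex.cos, he, he']; ring_nf
  have hsin : ((Real.sin η : ℝ) : ℂ) = (e' - e) * Complex.I / 2 := by
    rw [Complex.ofReal_sin, Complex.sin, he, he']; ring_nf
  have hI : Complex.I * Complex.I = -1 := Complex.I_mul_I
  have hs0 : ((Real.sin η : ℝ) : ℂ) ≠ 0 := by exact_mod_cast hη.ne'
  have hb : (‖x - x'‖ + ‖x‖ * (1 - Real.cos η)) / Real.sin η ≤ R - ‖x‖ := by linarith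
  have hcosle : 0 ≤ 1 - Real.cos η := by linarith [Real.cos_le_one η]
  -- the two auxiliary points
  set D : ℂ := (x' - x * (Real.cos η : ℝ)) / ((Real.sin η : ℝ) * Complex.I) with hD
  have hDn : ‖D‖ ≤ R - ‖x‖ := by
    refine le_trans ?_ hb
    rw [hD, norm_div, norm_mul, Complex.norm_I, mul_one, Complex.norm_real,
      Real.norm_of_nonneg hη.le]
    apply div_le_div_of_nonneg_right _ hη.le
    have : x' - x * (Real.cos η : ℝ) = -(x - x') + x * ((1 - Real.cos η : ℝ) : ℂ) := by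
      push_cast; ring
    rw [this]
    refine (norm_add_le _ _).trans ?_
    rw [norm_neg, norm_mul, Complex.norm_real, Real.norm_of_nonneg hcosle]
  have hn1 : ‖x - D‖ ≤ R := by
    calc ‖x - D‖ ≤ ‖x‖ + ‖D‖ := norm_sub_le _ _
      _ ≤ R := by linarith
  have hn2 : ‖x + D‖ ≤ R := by
    calc ‖x + D‖ ≤ ‖x‖ + ‖D‖ := norm_add_le _ _
      _ ≤ R := by linarith
  set w : ℂ := Complex.exp (((η / Q : ℝ) : ℂ) * Complex.I) with hw
  set w' : ℂ := Complex.exp (-(((η / Q : ℝ) : ℂ) * Complex.I)) with hw'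
  have hww : w * w' = 1 := by rw [hw, hw', ← Complex.exp_add]; simp
  have hwn : ‖w‖ = 1 := Complex.norm_exp_ofReal_mul_I _
  have hwn' : ‖w'‖ = 1 := by
    rw [hw', ← neg_mul, ← Complex.ofReal_neg]; exact Complex.norm_exp_ofReal_mul_I _
  obtain ⟨p, hp0, hp1, hp⟩ := hrep (w' * (x - D)) (by rw [norm_mul, hwn', one_mul]; exact hn1)
  obtain ⟨q, hq0, hq1, hq⟩ := hrep (w * (x + D)) (by rw [norm_mul, hwn, one_mul]; exact hn2)
  obtain ⟨μ, hμ, hμ'⟩ := exists_finite_measure (ι := κ ⊕ κ)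
    (Sum.elim (fun g => p g / 2) (fun g => q g / 2))
    (by rintro (g | g)
        · exact div_nonneg (hp0 g) (by norm_num)
        · exact div_nonneg (hq0 g) (by norm_num))
    (by rw [Fintype.sum_sum_type]
        simp only [Sum.elim_inl, Sum.elim_inr]
        rw [← Finset.sum_div, ← Finset.sum_div, hp1, hq1]; norm_num)
    (Sum.elim (fun g => η + 2 * Real.pi * K g) (fun g => -η + 2 * Real.pi * K g))
  have hQ' : (Q : ℝ) ≠ 0 := by exact_mod_cast hQ
  refine ⟨μ, hμ, ?_, ?_, ?_⟩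
  · rw [hμ', Fintype.sum_sum_type]
    simp only [Sum.elim_inl, Sum.elim_inr]
    have e1 : ∀ g : κ, ((p g / 2 : ℝ) : ℂ) *
        Complex.exp (((1 / Q * (η + 2 * Real.pi * K g) : ℝ) : ℂ) * Complex.I) =
        w / 2 * ((p g : ℂ) * Complex.exp (((2 * Real.pi * K g / Q : ℝ) : ℂ) * Complex.I)) := by
      intro g
      have : (((1 / Q * (η + 2 * Real.pi * K g) : ℝ) : ℂ) * Complex.I) =
          (((η / Q : ℝ) : ℂ) * Complex.I) + (((2 * Real.pi * K g / Q : ℝ) : ℂ) * Complex.I) := by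
        push_cast; ring
      rw [this, Complex.exp_add, hw]
      push_cast
      ring
    have e2 : ∀ g : κ, ((q g / 2 : ℝ) : ℂ) *
        Complex.exp (((1 / Q * (-η + 2 * Real.pi * K g) : ℝ) : ℂ) * Complex.I) =
        w' / 2 * ((q g : ℂ) * Complex.exp (((2 * Real.pi * K g / Q : ℝ) : ℂ) * Complex.I)) := by
      intro g
      have : (((1 / Q * (-η + 2 * Real.pi * K g) : ℝ) : ℂ) * Complex.I) =
          -(((η / Q : ℝ) : ℂ) * Complex.I) + (((2 * Real.pi * K g / Q : ℝ) : ℂ) * Complex.I) := by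
        push_cast; ring
      rw [this, Complex.exp_add, hw']
      push_cast
      ring
    simp_rw [e1, e2]
    rw [← Finset.mul_sum, ← Finset.mul_sum, hp, hq]
    linear_combination (x) * hww
  · rw [hμ', Fintype.sum_sum_type]
    simp only [Sum.elim_inl, Sum.elim_inr]
    have e1 : ∀ g : κ, ((p g / 2 : ℝ) : ℂ) *
        Complex.exp ((((1 / Q - 1) * (η + 2 * Real.pi * K g) : ℝ) : ℂ) * Complex.I) =
        w * e' / 2 *
          ((p g : ℂ) * Complex.exp (((2 * Real.pi * K g / Q : ℝ) : ℂ) * Complex.I)) := by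
      intro g
      have : ((((1 / Q - 1) * (η + 2 * Real.pi * K g) : ℝ) : ℂ) * Complex.I) =
          (((η / Q : ℝ) : ℂ) * Complex.I) + (-((η : ℂ) * Complex.I)) +
            (((2 * Real.pi * K g / Q : ℝ) : ℂ) * Complex.I) +
            (((2 * Real.pi * (-K g : ℤ) : ℝ) : ℂ) * Complex.I) := by
        push_cast; ring
      rw [this, Complex.exp_add, exp_int, Complex.exp_add, Complex.exp_add, hw, he']
      push_cast
      ring
    have e2 : ∀ g : κ, ((q g / 2 : ℝ) : ℂ) *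
        Complex.exp ((((1 / Q - 1) * (-η + 2 * Real.pi * K g) : ℝ) : ℂ) * Complex.I) =
        w' * e / 2 *
          ((q g : ℂ) * Complex.exp (((2 * Real.pi * K g / Q : ℝ) : ℂ) * Complex.I)) := by
      intro g
      have : ((((1 / Q - 1) * (-η + 2 * Real.pi * K g) : ℝ) : ℂ) * Complex.I) =
          -(((η / Q : ℝ) : ℂ) * Complex.I) + ((η : ℂ) * Complex.I) +
            (((2 * Real.pi * K g / Q : ℝ) : ℂ) * Complex.I) +
            (((2 * Real.pi * (-K g : ℤ) : ℝ) : ℂ) * Complex.I) := by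
        push_cast; ring
      rw [this, Complex.exp_add, exp_int, Complex.exp_add, Complex.exp_add, hw', he]
      push_cast
      ring
    simp_rw [e1, e2]
    rw [← Finset.mul_sum, ← Finset.mul_sum, hp, hq]
    have hD' : D * ((Real.sin η : ℝ) * Complex.I) = x' - x * (Real.cos η : ℝ) := by
      rw [hD]; field_simp
    rw [hsin, hcos] at hD'
    have : w * e' / 2 * (w' * (x - D)) + w' * e / 2 * (w * (x + D)) =
        (w * w') * (x * ((e + e') / 2) + D * ((e - e') / 2)) := by ring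
    rw [this, hww, one_mul]
    have h2 : D * ((e - e') / 2) = x' - x * ((e + e') / 2) := by
      rw [← hD']
      linear_combination (D * (e' - e) / 2) * (-hI)
    rw [h2]; ring
  · rw [hμ', Fintype.sum_sum_type]
    simp only [Sum.elim_inl, Sum.elim_inr]
    have e1 : ∀ g : κ, ((p g / 2 : ℝ) : ℂ) *
        Complex.exp (((1 * (η + 2 * Real.pi * K g) : ℝ) : ℂ) * Complex.I) =
        e / 2 * (p g : ℂ) := by
      intro g
      have : (((1 * (η + 2 * Real.pi * K g) : ℝ) : ℂ) * Complex.I) =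
          ((η : ℂ) * Complex.I) + (((2 * Real.pi * K g : ℝ) : ℂ) * Complex.I) := by
        push_cast; ring
      rw [this, Complex.exp_add, exp_int, he]
      push_cast
      ring
    have e2 : ∀ g : κ, ((q g / 2 : ℝ) : ℂ) *
        Complex.exp (((1 * (-η + 2 * Real.pi * K g) : ℝ) : ℂ) * Complex.I) =
        e' / 2 * (q g : ℂ) := by
      intro g
      have : (((1 * (-η + 2 * Real.pi * K g) : ℝ) : ℂ) * Complex.I) =
          -((η : ℂ) * Complex.I) + (((2 * Real.pi * K g : ℝ) : ℂ) * Complex.I) := by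
        push_cast; ring
      rw [this, Complex.exp_add, exp_int, he']
      push_cast
      ring
    simp_rw [e1, e2]
    rw [← Finset.mul_sum, ← Finset.mul_sum]
    have a1 : (∑ g, (p g : ℂ)) = 1 := by exact_mod_cast hp1
    have a2 : (∑ g, (q g : ℂ)) = 1 := by exact_mod_cast hq1
    rw [a1, a2, hcos]
    ring

/-- an admissible function is continuous at every point of the open bidisc -/
lemma adm_continuous {F : ℂ → ℂ → ℂ} (hF : Adm F) {x y : ℂ} (hx : ‖x‖ < 1) (hy : ‖y‖ < 1)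
    (ε : ℝ) (hε : 0 < ε) :
    ∃ δ > 0, ∀ x' y', ‖x' - x‖ < δ → ‖y' - y‖ < δ → ‖F x' y' - F x y‖ ≤ ε := by
  set m : ℝ := max ‖x‖ ‖y‖ with hm
  have hm1 : m < 1 := max_lt hx hy
  have hm0 : 0 ≤ m := le_trans (norm_nonneg x) (le_max_left _ _)
  set R : ℝ := (1 + m) / 2 with hR
  have hR0 : 0 ≤ R := by rw [hR]; linarith
  have hR1 : R < 1 := by rw [hR]; linarith
  set c : ℝ := (R - m) / 2 with hc
  have hc0 : 0 < c := by rw [hc, hR]; linarith
  obtain ⟨Q, κ, _, K, hQ, hrep⟩ := exists_rep R hR0 hR1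
  -- the auxiliary characteristic function `F (cos ξ) (cos ξ)`
  obtain ⟨μ0, hμ0, hμ0'⟩ := exists_finite_measure (ι := Fin 2) (fun _ => 1 / 2)
    (fun _ => by norm_num) (by simp) ![1, -1]
  have hcosφ : ∀ ξ : ℝ, charFun μ0 ξ = Real.cos ξ := by
    intro ξ
    rw [hμ0', Fin.sum_univ_two, Complex.ofReal_cos, Complex.cos]
    simp
    ring
  obtain ⟨ρ0, hρ0, hρ0'⟩ := hF μ0 μ0 hμ0 hμ0
  have hcont : Tendsto (fun ξ : ℝ => charFun ρ0 ξ) (𝓝[>] 0) (𝓝 1) := by
    have h1 : Continuous (charFun ρ0) := continuous_charFun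
    have h2 := h1.tendsto 0
    rw [charFun_zero] at h2
    simp only [probReal_univ, Complex.ofReal_one] at h2
    exact h2.mono_left nhdsWithin_le_nhds
  have hev1 : ∀ᶠ η : ℝ in 𝓝[>] 0, ‖charFun ρ0 η - 1‖ < ε ^ 2 / 2 := by
    have := (tendsto_iff_norm_sub_tendsto_zero.1 hcont).eventually
      (gt_mem_nhds (by positivity : (0:ℝ) < ε ^ 2 / 2))
    exact this
  have hev2 : ∀ᶠ η : ℝ in 𝓝[>] 0, η < min 1 c :=
    (gt_mem_nhds (lt_min one_pos hc0)).filter_mono nhdsWithin_le_nhds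
  have hev3 : ∀ᶠ η : ℝ in 𝓝[>] 0, 0 < η := self_mem_nhdsWithin
  obtain ⟨η, hη1, hη2, hη3⟩ := (hev1.and (hev2.and hev3)).exists
  have hη4 : η < 1 := lt_of_lt_of_le hη2 (min_le_left _ _)
  have hη5 : η < c := lt_of_lt_of_le hη2 (min_le_right _ _)
  have hpi := Real.pi_gt_three
  have hsin0 : 0 < Real.sin η := Real.sin_pos_of_pos_of_lt_pi hη3 (by linarith)
  have hsin : η / 2 ≤ Real.sin η := by
    have h1 := Real.mul_le_sin hη3.le (by linarith)
    have h2 : 1 / 2 ≤ 2 / Real.pi := by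
      rw [div_le_div_iff₀ (by norm_num) (by positivity)]
      have := Real.pi_le_four
      linarith
    nlinarith
  have hcos : 1 - Real.cos η ≤ c * Real.sin η := by
    have h1 := Real.one_sub_sq_div_two_le_cos (x := η)
    nlinarith
  refine ⟨c * Real.sin η, by positivity, ?_⟩
  intro x' y' hx' hy'
  have hcosn : 0 ≤ 1 - Real.cos η := by linarith [Real.cos_le_one η]
  have bound : ∀ a a' : ℂ, ‖a‖ ≤ m → ‖a' - a‖ < c * Real.sin η →
      ‖a‖ + (‖a - a'‖ + ‖a‖ * (1 - Real.cos η)) / Real.sin η ≤ R := by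
    intro a a' ha haa
    have h1 : (‖a - a'‖ + ‖a‖ * (1 - Real.cos η)) / Real.sin η ≤ 2 * c := by
      rw [div_le_iff₀ hsin0]
      rw [norm_sub_rev] at haa
      have h2 : ‖a‖ * (1 - Real.cos η) ≤ 1 * (1 - Real.cos η) := by
        apply mul_le_mul_of_nonneg_right _ hcosn
        linarith
      nlinarith
    have h3 : R = m + 2 * c := by rw [hc]; ring
    linarith
  obtain ⟨μ, hμ, hμ1, hμ2, hμ3⟩ := exists_pair hQ hrep η hsin0 x x'
    (bound x x' (le_max_left _ _) hx')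
  obtain ⟨ν, hν, hν1, hν2, hν3⟩ := exists_pair hQ hrep η hsin0 y y'
    (bound y y' (le_max_right _ _) hy')
  obtain ⟨ρ, hρ, hρ'⟩ := hF μ ν hμ hν
  have h1 := charFun_ineq ρ ((1 : ℝ) / Q) ((1 : ℝ) / Q - 1)
  have e1 : (1 : ℝ) / Q - ((1 : ℝ) / Q - 1) = 1 := by ring
  rw [e1, hρ', hρ', hρ', hμ1, hμ2, hμ3, hν1, hν2, hν3] at h1
  have e2 : F (Real.cos η : ℝ) (Real.cos η : ℝ) = charFun ρ0 η := by
    rw [hρ0', hcosφ]
  rw [e2] at h1
  have h2 : 1 - (charFun ρ0 η).re ≤ ‖charFun ρ0 η - 1‖ := by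
    have := Complex.re_le_norm (1 - charFun ρ0 η)
    rw [norm_sub_rev] at this
    simpa using this
  rw [norm_sub_rev]
  have h3 : ‖F x y - F x' y'‖ ^ 2 ≤ ε ^ 2 := by linarith
  exact le_of_sq_le_sq h3 hε.le

end continuity

/-! ### The approximating power series -/

section approx

/-- the monomials -/
def mon (x y : ℂ) (p : ℕ × ℕ × ℕ × ℕ) : ℂ :=
  x ^ p.1 * (conj x) ^ p.2.1 * y ^ p.2.2.1 * (conj y) ^ p.2.2.2

/-- the type of a digit vector -/
def typ {n : ℕ} (k : Bool × Fin n → ℤ) : ℕ × ℕ × ℕ × ℕ :=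
  (∑ j, (k (false, j)).toNat, ∑ j, (-k (false, j)).toNat, ∑ j, (k (true, j)).toNat,
    ∑ j, (-k (true, j)).toNat)

lemma prod_xp {n : ℕ} (x y : ℂ) (k : Bool × Fin n → ℤ) :
    ∏ i, xp (if i.1 then y else x) (k i) = mon x y (typ k) := by
  rw [Fintype.prod_prod_type, Fintype.prod_bool]
  simp only [xp, if_true, mon, typ]
  rw [Finset.prod_mul_distrib, Finset.prod_mul_distrib, Finset.prod_pow_eq_pow_sum,
    Finset.prod_pow_eq_pow_sum]
  simp only [Bool.false_eq_true, if_false]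
  rw [Finset.prod_pow_eq_pow_sum, Finset.prod_pow_eq_pow_sum]
  ring

lemma exists_approx {F : ℂ → ℂ → ℂ} (hF : Adm F) (n : ℕ) (hn : 1 ≤ n) :
    ∃ a : ℕ × ℕ × ℕ × ℕ → ℝ, (∀ p, 0 ≤ a p) ∧ (∀ s : Finset (ℕ × ℕ × ℕ × ℕ), ∑ p ∈ s, a p ≤ 1) ∧
      ∀ (x y : ℂ) (R : ℝ), R < 1 → ‖x‖ ≤ R → ‖y‖ ≤ R → 4 * R ^ (n + 1) ≤ 1 - R ^ 2 →
        ∀ ε C : ℝ, 0 ≤ C → (∀ x' y', ‖F x' y'‖ ≤ 1 →
          ‖F x' y' - F x y‖ ≤ ε + C * (‖x' - x‖ ^ 2 + ‖y' - y‖ ^ 2)) →
        ∃ T : ℂ, HasSum (fun p => (a p : ℂ) * mon x y p) T ∧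
          ‖T - F x y‖ ≤ ε + C * ((n : ℝ)⁻¹ + (n : ℝ)⁻¹) := by
  classical
  obtain ⟨Q, M, hQ, hM⟩ := exists_dissoc (Bool × Fin n) n
  have : NeZero Q := ⟨hQ⟩
  set A : Finset (Bool × Fin n) := Finset.univ.filter (fun i => i.1 = false) with hA
  set B : Finset (Bool × Fin n) := Finset.univ.filter (fun i => i.1 = true) with hB
  have hAc : A.card = n := by
    have : A = ({false} : Finset Bool) ×ˢ (Finset.univ : Finset (Fin n)) := by
      ext ⟨b, j⟩; simp [hA]
    rw [this, Finset.card_product]; simp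
  have hBc : B.card = n := by
    have : B = ({true} : Finset Bool) ×ˢ (Finset.univ : Finset (Fin n)) := by
      ext ⟨b, j⟩; simp [hB]
    rw [this, Finset.card_product]; simp
  obtain ⟨hc, hb⟩ := coef_nonneg (Q := Q) hF M A B (by omega) (by omega)
  set f : ZMod Q → ℂ := fun u => F (av Q M A u) (av Q M B u) with hf
  choose c hc0 hc using hc
  have hsum : ∑ t, c t = 1 := by
    have h1 := sum_coef f
    simp_rw [hc] at h1
    rw [hf] at h1
    simp only [av_zero (Q := Q) M A (by omega), av_zero (Q := Q) M B (by omega), F_one hF] at h1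
    exact_mod_cast h1
  refine ⟨fun p => ∑ k ∈ SS (Bool × Fin n) n, if typ k = p then c (freq Q M k) else 0, ?_, ?_, ?_⟩
  · intro p
    apply Finset.sum_nonneg
    intro k _
    split_ifs
    · exact hc0 _
    · exact le_rfl
  · intro s
    rw [Finset.sum_comm]
    calc ∑ k ∈ SS (Bool × Fin n) n, ∑ p ∈ s, (if typ k = p then c (freq Q M k) else 0)
        ≤ ∑ k ∈ SS (Bool × Fin n) n, c (freq Q M k) := by
          apply Finset.sum_le_sum
          intro k _
          rw [Finset.sum_ite_eq]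
          split_ifs
          · exact le_rfl
          · exact hc0 _
      _ = ∑ t ∈ (SS (Bool × Fin n) n).image (freq Q M), c t := by
          rw [Finset.sum_image]
          intro k hk k' hk' h
          exact hM k hk k' hk' h
      _ ≤ ∑ t, c t := Finset.sum_le_sum_of_subset_of_nonneg (Finset.subset_univ _)
          (fun t _ _ => hc0 t)
      _ = 1 := hsum
  · intro x y R hR hx hy hh ε C hC hbd
    set X : Bool × Fin n → ℂ := fun i => if i.1 then y else x with hX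
    have hXR : ∀ i, ‖X i‖ ≤ R := by
      rintro ⟨b, j⟩
      cases b <;> simp [hX, hx, hy]
    refine ⟨EE Q M n X f, ?_, ?_⟩
    · rw [EE_eq]
      have h1 : (fun p => (((∑ k ∈ SS (Bool × Fin n) n,
          if typ k = p then c (freq Q M k) else 0 : ℝ)) : ℂ) * mon x y p) =
          fun p => ∑ k ∈ SS (Bool × Fin n) n,
            (if p = typ k then (∏ i, xp (X i) (k i)) * coef f (freq Q M k) else 0) := by
        funext p
        rw [Complex.ofReal_sum, Finset.sum_mul]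
        apply Finset.sum_congr rfl
        intro k _
        by_cases h : typ k = p
        · rw [if_pos h, if_pos h.symm, hc, prod_xp, h]
          ring
        · rw [if_neg h, if_neg (fun h' => h h'.symm)]
          simp
      rw [h1]
      apply hasSum_sum
      intro k _
      exact hasSum_ite_eq _ _
    · have := EE_lln hM hn X R hR hXR hh A B (by omega) (by omega) x y
        (by intro i hi; simp only [hA, Finset.mem_filter, Finset.mem_univ, true_and] at hi
            simp [hX, hi])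
        (by intro i hi; simp only [hB, Finset.mem_filter, Finset.mem_univ, true_and] at hi
            simp [hX, hi])
        f (F x y) ε C hC (by
          intro u
          exact hbd _ _ (hb u))
      rw [hAc, hBc] at this
      exact this

lemma norm_mon (x y : ℂ) (p : ℕ × ℕ × ℕ × ℕ) :
    ‖mon x y p‖ = ‖x‖ ^ p.1 * (‖x‖ ^ p.2.1 * (‖y‖ ^ p.2.2.1 * ‖y‖ ^ p.2.2.2)) := by
  simp only [mon, norm_mul, norm_pow, Complex.norm_conj]
  ring

lemma summable_bound (r s : ℝ) (hr0 : 0 ≤ r) (hr : r < 1) (hs0 : 0 ≤ s) (hs : s < 1) :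
    Summable (fun p : ℕ × ℕ × ℕ × ℕ => r ^ p.1 * (r ^ p.2.1 * (s ^ p.2.2.1 * s ^ p.2.2.2))) := by
  have hr' := summable_geometric_of_lt_one hr0 hr
  have hs' := summable_geometric_of_lt_one hs0 hs
  have n1 : ∀ t : ℝ, 0 ≤ t → (0 : ℕ → ℝ) ≤ fun n => t ^ n := fun t ht n => pow_nonneg ht n
  have h1 := hs'.mul_of_nonneg hs' (n1 s hs0) (n1 s hs0)
  have h2 := hr'.mul_of_nonneg h1 (n1 r hr0)
    (fun p => mul_nonneg (pow_nonneg hs0 _) (pow_nonneg hs0 _))
  exact hr'.mul_of_nonneg h2 (n1 r hr0)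
    (fun p => mul_nonneg (pow_nonneg hr0 _) (mul_nonneg (pow_nonneg hs0 _) (pow_nonneg hs0 _)))

lemma exists_series {F : ℂ → ℂ → ℂ} (hF : Adm F) :
    ∃ a : ℕ × ℕ × ℕ × ℕ → ℝ, (∀ p, 0 ≤ a p) ∧ Summable a ∧
      ∀ x y : ℂ, ‖x‖ < 1 → ‖y‖ < 1 → HasSum (fun p => (a p : ℂ) * mon x y p) (F x y) := by
  choose a ha0 ha1 ha using fun n : ℕ => exists_approx hF (n + 1) (by omega)
  set U : Ultrafilter ℕ := hyperfilter ℕ with hU
  have hIcc : ∀ n p, a n p ∈ Set.Icc (0 : ℝ) 1 := by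
    intro n p
    refine ⟨ha0 n p, ?_⟩
    have := ha1 n {p}
    simpa using this
  have hlim : ∀ p, ∃ L ∈ Set.Icc (0 : ℝ) 1, Tendsto (fun n => a n p) U (𝓝 L) := by
    intro p
    have h1 : (↑(U.map fun n => a n p) : Filter ℝ) ≤ 𝓟 (Set.Icc (0 : ℝ) 1) := by
      rw [le_principal_iff, Ultrafilter.mem_coe, Ultrafilter.mem_map]
      exact Filter.univ_mem' (fun n => hIcc n p)
    obtain ⟨L, hL, hL'⟩ := isCompact_Icc.ultrafilter_le_nhds _ h1
    exact ⟨L, hL, hL'⟩
  choose L hL hL' using hlim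
  have hLs : ∀ s : Finset (ℕ × ℕ × ℕ × ℕ), ∑ p ∈ s, L p ≤ 1 := by
    intro s
    have h1 : Tendsto (fun n => ∑ p ∈ s, a n p) U (𝓝 (∑ p ∈ s, L p)) :=
      tendsto_finsetSum s fun p _ => hL' p
    exact le_of_tendsto h1 (Filter.Eventually.of_forall fun n => ha1 n s)
  have hLsum : Summable L := summable_of_sum_le (fun p => (hL p).1) hLs
  refine ⟨L, fun p => (hL p).1, hLsum, ?_⟩
  intro x y hx hy
  set R : ℝ := max ‖x‖ ‖y‖ with hR
  have hR1 : R < 1 := max_lt hx hy
  have hR0 : 0 ≤ R := le_trans (norm_nonneg x) (le_max_left _ _)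
  have hxR : ‖x‖ ≤ R := le_max_left _ _
  have hyR : ‖y‖ ≤ R := le_max_right _ _
  have hbound := summable_bound ‖x‖ ‖y‖ (norm_nonneg _) hx (norm_nonneg _) hy
  -- termwise limit
  have hT1 : Tendsto (fun n => ∑' p, (a n p : ℂ) * mon x y p) U
      (𝓝 (∑' p, (L p : ℂ) * mon x y p)) := by
    apply tendsto_tsum_of_dominated_convergence hbound
    · intro p
      exact ((Complex.continuous_ofReal.tendsto _).comp (hL' p)).mul_const _
    · refine Filter.Eventually.of_forall fun n p => ?_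
      rw [norm_mul, Complex.norm_real, norm_mon, Real.norm_of_nonneg (ha0 n p)]
      apply mul_le_of_le_one_left _ (hIcc n p).2
      positivity
  -- the limit is `F x y`
  have hT2 : Tendsto (fun n => ∑' p, (a n p : ℂ) * mon x y p) atTop (𝓝 (F x y)) := by
    rw [Metric.tendsto_atTop]
    intro ε hε
    obtain ⟨δ, hδ, hcont⟩ := adm_continuous hF hx hy (ε / 4) (by linarith)
    set C : ℝ := (1 + ‖F x y‖) / δ ^ 2 with hC
    have hC0 : 0 ≤ C := by positivity
    have hbd : ∀ x' y', ‖F x' y'‖ ≤ 1 →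
        ‖F x' y' - F x y‖ ≤ ε / 4 + C * (‖x' - x‖ ^ 2 + ‖y' - y‖ ^ 2) := by
      intro x' y' hn
      by_cases h1 : ‖x' - x‖ < δ
      · by_cases h2 : ‖y' - y‖ < δ
        · have := hcont x' y' h1 h2
          have h3 : 0 ≤ C * (‖x' - x‖ ^ 2 + ‖y' - y‖ ^ 2) := by positivity
          linarith
        · push Not at h2
          have h3 : ‖F x' y' - F x y‖ ≤ 1 + ‖F x y‖ := (norm_sub_le _ _).trans (by linarith)
          have h4 : 1 + ‖F x y‖ ≤ C * (‖x' - x‖ ^ 2 + ‖y' - y‖ ^ 2) := by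
            rw [hC, div_mul_eq_mul_div, le_div_iff₀ (by positivity)]
            have : δ ^ 2 ≤ ‖x' - x‖ ^ 2 + ‖y' - y‖ ^ 2 := by
              have := pow_le_pow_left₀ hδ.le h2 2
              have := sq_nonneg ‖x' - x‖
              linarith
            have hp : 0 ≤ 1 + ‖F x y‖ := by positivity
            exact mul_le_mul_of_nonneg_left this hp
          linarith
      · push Not at h1
        have h3 : ‖F x' y' - F x y‖ ≤ 1 + ‖F x y‖ := (norm_sub_le _ _).trans (by linarith)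
        have h4 : 1 + ‖F x y‖ ≤ C * (‖x' - x‖ ^ 2 + ‖y' - y‖ ^ 2) := by
          rw [hC, div_mul_eq_mul_div, le_div_iff₀ (by positivity)]
          have : δ ^ 2 ≤ ‖x' - x‖ ^ 2 + ‖y' - y‖ ^ 2 := by
            have := pow_le_pow_left₀ hδ.le h1 2
            have := sq_nonneg ‖y' - y‖
            linarith
          have hp : 0 ≤ 1 + ‖F x y‖ := by positivity
          exact mul_le_mul_of_nonneg_left this hp
        linarith
    have ev1 : ∀ᶠ n : ℕ in atTop, 4 * R ^ (n + 1 + 1) ≤ 1 - R ^ 2 := by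
      have h1 : Tendsto (fun n : ℕ => 4 * R ^ (n + 1 + 1)) atTop (𝓝 (4 * 0)) :=
        (((tendsto_pow_atTop_nhds_zero_of_lt_one hR0 hR1).comp (tendsto_add_atTop_nat 1)).comp
          (tendsto_add_atTop_nat 1)).const_mul 4
      rw [mul_zero] at h1
      have h2 : (0 : ℝ) < 1 - R ^ 2 := by nlinarith
      filter_upwards [h1.eventually (gt_mem_nhds h2)] with n hn
      exact hn.le
    have ev2 : ∀ᶠ n : ℕ in atTop,
        C * ((((n + 1 : ℕ) : ℝ))⁻¹ + (((n + 1 : ℕ) : ℝ))⁻¹) < ε / 4 := by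
      have h1 : Tendsto (fun n : ℕ => C * ((((n + 1 : ℕ) : ℝ))⁻¹ + (((n + 1 : ℕ) : ℝ))⁻¹)) atTop
          (𝓝 (C * (0 + 0))) := by
        have h2 : Tendsto (fun n : ℕ => (((n + 1 : ℕ) : ℝ))⁻¹) atTop (𝓝 0) :=
          (tendsto_inv_atTop_nhds_zero_nat (𝕜 := ℝ)).comp (tendsto_add_atTop_nat 1)
        exact (h2.add h2).const_mul C
      rw [add_zero, mul_zero] at h1
      exact h1.eventually (gt_mem_nhds (by linarith))
    obtain ⟨N, hN⟩ := (ev1.and ev2).exists_forall_of_atTop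
    refine ⟨N, fun n hn => ?_⟩
    obtain ⟨h1, h2⟩ := hN n hn
    obtain ⟨T, hT, hT'⟩ := ha n x y R hR1 hxR hyR h1 (ε / 4) C hC0 hbd
    rw [hT.tsum_eq, dist_eq_norm]
    calc ‖T - F x y‖ ≤ ε / 4 + C * ((((n + 1 : ℕ) : ℝ))⁻¹ + (((n + 1 : ℕ) : ℝ))⁻¹) := hT'
      _ < ε := by linarith
  have heq := tendsto_nhds_unique hT1 (hT2.mono_left Nat.hyperfilter_le_atTop)
  rw [← heq]
  apply Summable.hasSum
  apply Summable.of_norm_bounded hbound
  intro p
  rw [norm_mul, Complex.norm_real, norm_mon, Real.norm_of_nonneg (hL p).1]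
  apply mul_le_of_le_one_left _ (hL p).2
  positivity

end approx

/-! ### The boundary -/

section boundary

lemma exists_boundary (x : ℂ) (hx : ‖x‖ ≤ 1) :
    ∃ μ : Measure ℝ, IsProbabilityMeasure μ ∧ charFun μ (1 : ℝ) = x ∧
      ∀ ξ ∈ Set.Ioo (0 : ℝ) 1, ‖charFun μ ξ‖ < 1 := by
  set r : ℝ := ‖x‖ with hr
  have hr0 : 0 ≤ r := norm_nonneg _
  set α : ℝ := x.arg with hα
  obtain ⟨μ, hμ, hμ'⟩ := exists_finite_measure (ι := Fin 5)
    ![r / 2, r / 4, r / 4, (1 - r) / 2, (1 - r) / 2]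
    (by intro i
        fin_cases i
        · exact div_nonneg hr0 (by norm_num)
        · exact div_nonneg hr0 (by norm_num)
        · exact div_nonneg hr0 (by norm_num)
        · exact div_nonneg (by linarith) (by norm_num)
        · exact div_nonneg (by linarith) (by norm_num))
    (by simp [Fin.sum_univ_five]; ring)
    ![α, α + 2 * Real.pi, α - 2 * Real.pi, α + Real.pi / 2, α - Real.pi / 2]
  have key : ∀ ξ : ℝ, charFun μ ξ = Complex.exp ((α * ξ : ℝ) * Complex.I) *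
      ((r * ((1 + Real.cos (2 * Real.pi * ξ)) / 2) + (1 - r) * Real.cos (Real.pi / 2 * ξ) : ℝ) :
        ℂ) := by
    intro ξ
    rw [hμ', Fin.sum_univ_five]
    simp only [Matrix.cons_val]
    have e : ∀ t : ℝ, Complex.exp (((ξ * (α + t) : ℝ) : ℂ) * Complex.I) =
        Complex.exp ((α * ξ : ℝ) * Complex.I) * Complex.exp ((t * ξ : ℝ) * Complex.I) := by
      intro t
      rw [← Complex.exp_add]
      congr 1
      push_cast; ring
    have e0 : Complex.exp (((ξ * α : ℝ) : ℂ) * Complex.I) =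
        Complex.exp ((α * ξ : ℝ) * Complex.I) := by rw [mul_comm ξ α]
    have c : ∀ t : ℝ, ((Real.cos (t * ξ) : ℝ) : ℂ) =
        (Complex.exp ((t * ξ : ℝ) * Complex.I) + Complex.exp ((-t * ξ : ℝ) * Complex.I)) / 2 := by
      intro t
      rw [Complex.ofReal_cos, Complex.cos]
      push_cast
      ring_nf
    rw [sub_eq_add_neg α (2 * Real.pi), sub_eq_add_neg α (Real.pi / 2), e, e, e, e, e0]
    push_cast [c]
    ring
  refine ⟨μ, hμ, ?_, ?_⟩
  · rw [key]
    have h1 : Real.cos (2 * Real.pi * 1) = 1 := by rw [mul_one]; exact Real.cos_two_pi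
    have h2 : Real.cos (Real.pi / 2 * 1) = 0 := by rw [mul_one]; exact Real.cos_pi_div_two
    rw [h1, h2]
    have h3 := Complex.norm_mul_exp_arg_mul_I x
    rw [← hr, ← hα] at h3
    push_cast
    rw [mul_one, mul_zero, add_zero]
    linear_combination h3
  · intro ξ hξ
    rw [key, norm_mul, Complex.norm_exp_ofReal_mul_I, one_mul, Complex.norm_real]
    have hpi := Real.pi_pos
    have h1 : Real.cos (2 * Real.pi * ξ) < 1 := by
      apply lt_of_le_of_ne (Real.cos_le_one _)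
      intro h
      rw [Real.cos_eq_one_iff_of_lt_of_lt] at h
      · have : ξ = 0 := by
          rcases mul_eq_zero.1 h with h | h
          · exfalso; linarith
          · exact h
        exact hξ.1.ne' this
      · have := hξ.1; nlinarith
      · have := hξ.2; nlinarith
    have h1' : -1 ≤ Real.cos (2 * Real.pi * ξ) := Real.neg_one_le_cos _
    have h2 : 0 < Real.cos (Real.pi / 2 * ξ) := by
      apply Real.cos_pos_of_mem_Ioo
      constructor
      · have := hξ.1; nlinarith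
      · have := hξ.2; nlinarith
    have h3 : Real.cos (Real.pi / 2 * ξ) < 1 := by
      apply lt_of_le_of_ne (Real.cos_le_one _)
      intro h
      rw [Real.cos_eq_one_iff_of_lt_of_lt] at h
      · have : ξ = 0 := by
          rcases mul_eq_zero.1 h with h | h
          · exfalso; linarith
          · exact h
        exact hξ.1.ne' this
      · have := hξ.1; nlinarith
      · have := hξ.2; nlinarith
    have hr1 : r ≤ 1 := hx
    rw [Real.norm_of_nonneg]
    · rcases eq_or_lt_of_le hr0 with h0 | h0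
      · rw [← h0]; linarith
      · have a1 : r * ((1 + Real.cos (2 * Real.pi * ξ)) / 2) < r * 1 := by
          apply mul_lt_mul_of_pos_left _ h0
          linarith
        have a2 : (1 - r) * Real.cos (Real.pi / 2 * ξ) ≤ (1 - r) * 1 := by
          apply mul_le_mul_of_nonneg_left h3.le
          linarith
        linarith
    · have a1 : 0 ≤ r * ((1 + Real.cos (2 * Real.pi * ξ)) / 2) := by
        apply mul_nonneg hr0; linarith
      have a2 : 0 ≤ (1 - r) * Real.cos (Real.pi / 2 * ξ) := by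
        apply mul_nonneg _ h2.le; linarith
      linarith

lemma forward {F : ℂ → ℂ → ℂ} (hF : Adm F) :
    ∃ a : ℕ × ℕ × ℕ × ℕ → ℝ, (∀ p, 0 ≤ a p) ∧ HasSum a 1 ∧
      ∀ x y : ℂ, ‖x‖ ≤ 1 → ‖y‖ ≤ 1 → HasSum (fun p => (a p : ℂ) * mon x y p) (F x y) := by
  obtain ⟨a, ha0, hasum, ha⟩ := exists_series hF
  have hbd : ∀ x y : ℂ, ‖x‖ ≤ 1 → ‖y‖ ≤ 1 → ∀ p, ‖(a p : ℂ) * mon x y p‖ ≤ a p := by
    intro x y hx hy p
    rw [norm_mul, Complex.norm_real, norm_mon, Real.norm_of_nonneg (ha0 p)]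
    apply mul_le_of_le_one_right (ha0 p)
    have h1 : ‖x‖ ^ p.1 ≤ 1 := pow_le_one₀ (norm_nonneg _) hx
    have h2 : ‖x‖ ^ p.2.1 ≤ 1 := pow_le_one₀ (norm_nonneg _) hx
    have h3 : ‖y‖ ^ p.2.2.1 ≤ 1 := pow_le_one₀ (norm_nonneg _) hy
    have h4 : ‖y‖ ^ p.2.2.2 ≤ 1 := pow_le_one₀ (norm_nonneg _) hy
    have n1 : 0 ≤ ‖x‖ ^ p.1 := by positivity
    have n2 : 0 ≤ ‖x‖ ^ p.2.1 := by positivity
    have n3 : 0 ≤ ‖y‖ ^ p.2.2.1 := by positivity
    have n4 : 0 ≤ ‖y‖ ^ p.2.2.2 := by positivity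
    exact mul_le_one₀ h1 (by positivity) (mul_le_one₀ h2 (by positivity)
      (mul_le_one₀ h3 (by positivity) h4))
  have hmain : ∀ x y : ℂ, ‖x‖ ≤ 1 → ‖y‖ ≤ 1 →
      HasSum (fun p => (a p : ℂ) * mon x y p) (F x y) := by
    intro x y hx hy
    obtain ⟨μ, hμ, hμ1, hμ2⟩ := exists_boundary x hx
    obtain ⟨ν, hν, hν1, hν2⟩ := exists_boundary y hy
    obtain ⟨ρ, hρ, hρ'⟩ := hF μ ν hμ hν
    have c1 : Continuous (charFun ρ) := continuous_charFun
    have c2 : Continuous fun ξ : ℝ =>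
        ∑' p, (a p : ℂ) * mon (charFun μ ξ) (charFun ν ξ) p := by
      refine continuous_tsum (u := a) ?_ hasum ?_
      · intro p
        have h1 : Continuous (charFun μ) := continuous_charFun
        have h2 : Continuous (charFun ν) := continuous_charFun
        unfold mon
        exact continuous_const.mul ((((h1.pow _).mul ((Complex.continuous_conj.comp h1).pow _)).mul
          (h2.pow _)).mul ((Complex.continuous_conj.comp h2).pow _))
      · intro p ξ
        exact hbd _ _ (norm_charFun_le_one ξ) (norm_charFun_le_one ξ) p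
    have heq : Set.EqOn (charFun ρ) (fun ξ : ℝ =>
        ∑' p, (a p : ℂ) * mon (charFun μ ξ) (charFun ν ξ) p) (Set.Ioo 0 1) := by
      intro ξ hξ
      simp only
      rw [hρ', (ha _ _ (hμ2 ξ hξ) (hν2 ξ hξ)).tsum_eq]
    have h1 := heq.closure c1 c2
    rw [closure_Ioo (by norm_num)] at h1
    have h2 := h1 (Set.right_mem_Icc.2 zero_le_one)
    simp only [hρ', hμ1, hν1] at h2
    rw [h2]
    apply Summable.hasSum
    exact Summable.of_norm_bounded hasum (hbd x y hx hy)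
  refine ⟨a, ha0, ?_, hmain⟩
  have h1 := hmain 1 1 (by simp) (by simp)
  rw [F_one hF] at h1
  have h2 : (fun p => (a p : ℂ) * mon 1 1 p) = fun p => ((a p : ℝ) : ℂ) := by
    funext p; simp [mon]
  rw [h2, ← Complex.ofReal_one] at h1
  exact Complex.hasSum_ofReal.1 h1

end boundary

/-! ### The converse -/

section converse

lemma exists_mul (μ ν : Measure ℝ) [IsProbabilityMeasure μ] [IsProbabilityMeasure ν] :
    ∃ κ : Measure ℝ, IsProbabilityMeasure κ ∧ ∀ ξ : ℝ, charFun κ ξ = charFun μ ξ * charFun ν ξ :=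
  ⟨μ.conv ν, inferInstance, fun ξ => charFun_conv ξ⟩

lemma exists_conj (μ : Measure ℝ) [IsProbabilityMeasure μ] :
    ∃ κ : Measure ℝ, IsProbabilityMeasure κ ∧ ∀ ξ : ℝ, charFun κ ξ = conj (charFun μ ξ) := by
  refine ⟨μ.map (fun x => (-1 : ℝ) * x), Measure.isProbabilityMeasure_map (by fun_prop), ?_⟩
  intro ξ
  rw [charFun_map_mul, neg_one_mul, charFun_neg]

lemma exists_pow (μ : Measure ℝ) [IsProbabilityMeasure μ] (n : ℕ) :
    ∃ κ : Measure ℝ, IsProbabilityMeasure κ ∧ ∀ ξ : ℝ, charFun κ ξ = charFun μ ξ ^ n := by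
  induction n with
  | zero => exact ⟨Measure.dirac 0, inferInstance, fun ξ => by simp⟩
  | succ n ih =>
    obtain ⟨κ, hκ, h⟩ := ih
    obtain ⟨κ', hκ', h'⟩ := exists_mul κ μ
    exact ⟨κ', hκ', fun ξ => by rw [h', h, pow_succ]⟩

lemma exists_mon (μ ν : Measure ℝ) [IsProbabilityMeasure μ] [IsProbabilityMeasure ν]
    (p : ℕ × ℕ × ℕ × ℕ) : ∃ κ : Measure ℝ, IsProbabilityMeasure κ ∧
      ∀ ξ : ℝ, charFun κ ξ = mon (charFun μ ξ) (charFun ν ξ) p := by
  obtain ⟨μ', _, hμ'⟩ := exists_conj μ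
  obtain ⟨ν', _, hν'⟩ := exists_conj ν
  obtain ⟨k1, _, h1⟩ := exists_pow μ p.1
  obtain ⟨k2, _, h2⟩ := exists_pow μ' p.2.1
  obtain ⟨k3, _, h3⟩ := exists_pow ν p.2.2.1
  obtain ⟨k4, _, h4⟩ := exists_pow ν' p.2.2.2
  obtain ⟨k5, _, h5⟩ := exists_mul k1 k2
  obtain ⟨k6, _, h6⟩ := exists_mul k5 k3
  obtain ⟨k7, hk7, h7⟩ := exists_mul k6 k4
  refine ⟨k7, hk7, fun ξ => ?_⟩
  rw [h7, h6, h5, h4, h3, h2, h1, hμ', hν', mon]

lemma converse {F : ℂ → ℂ → ℂ} {a : ℕ × ℕ × ℕ × ℕ → ℝ} (ha0 : ∀ p, 0 ≤ a p) (ha1 : HasSum a 1)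
    (ha : ∀ x y : ℂ, ‖x‖ ≤ 1 → ‖y‖ ≤ 1 → HasSum (fun p => (a p : ℂ) * mon x y p) (F x y)) :
    Adm F := by
  intro μ ν hμ hν
  choose κ hκ hκ' using exists_mon μ ν
  set ρ : Measure ℝ := Measure.sum fun p => ENNReal.ofReal (a p) • κ p with hρ
  have hprob : IsProbabilityMeasure ρ := by
    refine ⟨?_⟩
    rw [hρ, Measure.sum_apply _ MeasurableSet.univ]
    simp only [Measure.coe_smul, Pi.smul_apply, measure_univ, smul_eq_mul, mul_one]
    rw [← ENNReal.ofReal_tsum_of_nonneg ha0 ha1.summable, ha1.tsum_eq, ENNReal.ofReal_one]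
  refine ⟨ρ, hprob, fun ξ => ?_⟩
  have hint : Integrable (fun x : ℝ => Complex.exp (ξ * x * Complex.I)) ρ := by
    refine (integrable_const (1 : ℝ)).mono' ?_ ?_
    · exact (by fun_prop :
        Continuous fun x : ℝ => Complex.exp (ξ * x * Complex.I)).aestronglyMeasurable
    · refine ae_of_all _ fun x => ?_
      have : (ξ * x * Complex.I : ℂ) = ((ξ * x : ℝ) : ℂ) * Complex.I := by push_cast; ring
      rw [this, Complex.norm_exp_ofReal_mul_I]
  have h1 := hasSum_integral_measure hint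
  have h2 : ∀ p, ∫ x, Complex.exp (ξ * x * Complex.I) ∂(ENNReal.ofReal (a p) • κ p) =
      (a p : ℂ) * mon (charFun μ ξ) (charFun ν ξ) p := by
    intro p
    rw [integral_smul_measure, ENNReal.toReal_ofReal (ha0 p), ← hκ', charFun_apply_real,
      Complex.real_smul]
  simp_rw [h2] at h1
  rw [charFun_apply_real]
  exact h1.unique (ha _ _ (norm_charFun_le_one ξ) (norm_charFun_le_one ξ))

end converse

/-! ### The result -/

/-- **The admissible functions of two variables.** No regularity of `F` is assumed. A function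
`F` on the product of two closed unit discs is admissible if and only if it is given there by a
power series `F(x, y) = ∑ a_{jklm} x^j x̄^k y^l ȳ^m` with nonnegative coefficients of sum `1`. -/
theorem result (F : Disc → Disc → ℂ) :
    Admissible F ↔
      ∃ a : ℕ → ℕ → ℕ → ℕ → ℝ, (∀ j k l m, 0 ≤ a j k l m) ∧
        HasSum (fun p : ℕ × ℕ × ℕ × ℕ => a p.1 p.2.1 p.2.2.1 p.2.2.2) 1 ∧
        ∀ x y : Disc, HasSum (fun p : ℕ × ℕ × ℕ × ℕ =>
          (a p.1 p.2.1 p.2.2.1 p.2.2.2 : ℂ) * ((x : ℂ) ^ p.1 * conj (x : ℂ) ^ p.2.1 *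
            (y : ℂ) ^ p.2.2.1 * conj (y : ℂ) ^ p.2.2.2)) (F x y) := by
  classical
  set G : ℂ → ℂ → ℂ := fun x y =>
    if h : ‖x‖ ≤ 1 ∧ ‖y‖ ≤ 1 then F ⟨x, by simpa using h.1⟩ ⟨y, by simpa using h.2⟩ else 0 with hG
  have hGF : ∀ x y : Disc, G x y = F x y := by
    rintro ⟨x, hx⟩ ⟨y, hy⟩
    have hx' : ‖x‖ ≤ 1 := by simpa using hx
    have hy' : ‖y‖ ≤ 1 := by simpa using hy
    simp [hG, hx', hy']
  have hadm : Admissible F ↔ Adm G := by
    constructor
    · intro h μ ν hμ hν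
      obtain ⟨ρ, hρ, hρ'⟩ := h μ ν
      refine ⟨ρ, hρ, fun ξ => ?_⟩
      rw [hρ', ← hGF]
      rfl
    · intro h μ ν hμ hν
      obtain ⟨ρ, hρ, hρ'⟩ := h μ ν hμ hν
      refine ⟨ρ, hρ, fun ξ => ?_⟩
      rw [hρ', ← hGF]
      rfl
  rw [hadm]
  constructor
  · intro h
    obtain ⟨a, ha0, ha1, ha⟩ := forward h
    refine ⟨fun j k l m => a (j, k, l, m), fun j k l m => ha0 _, ha1, fun x y => ?_⟩
    rw [← hGF]
    exact ha x y (mem_closedBall_zero_iff.1 x.2) (mem_closedBall_zero_iff.1 y.2)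
  · rintro ⟨a, ha0, ha1, ha⟩
    refine converse (a := fun p => a p.1 p.2.1 p.2.2.1 p.2.2.2) (fun p => ha0 _ _ _ _) ha1 ?_
    intro x y hx hy
    have h1 := ha ⟨x, by simpa using hx⟩ ⟨y, by simpa using hy⟩
    rw [← hGF] at h1
    exact h1

end

end Pool.Agent.Results.MP_23fb81_pr.TwoVariable
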